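import Pool.Agent.H56.KAF.Defs
import Pool.Agent.H32.Dense.Conf

/-!
# THEOREM OCS: the algebra (sections 4 (C) and 5)

`P` is the law of the samples, `L` the line, `th` the time, `e = (1, E)` the direction of the fan,
`S` the tilt of the plank, `La` the slope of the tilt given by stage A. At coarse scales the mates
give `S₁ - S₀ + (t₁ - t₀) (La₀ + La₁) = 0`; so `La` is affine, and at near times stage A gives
`S₁ - S₀ = (t₁ - t₀) La₀`. Together `La = 0`. All relations hold outside small probabilities and up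
to errors in the unit `B` (a function of the line).
-/

set_option autoImplicit false

namespace Pool.OCSA

open Finset Real
open Pool.Agent.H49.Ent Pool.Agent.H32.Dense Pool.STK Pool.KAF

/-! ### Real algebra -/

/-- Five coarse relations and a near relation. -/
theorem core {t₀ t₁ t₂ t₃ s₀ s₁ s₂ s₃ a₀ a₁ a₂ a₃ ε η B r τ₁ τ₂ : ℝ} (hr : 0 < r)
    (hB : 0 ≤ B) (hε : 0 ≤ ε) (hη : 0 ≤ η) (hτ : 0 < τ₁) (hτ1 : τ₁ ≤ |t₁ - t₀|)
    (hτ2 : |t₁ - t₀| ≤ τ₂) (hτ3 : |t₁ - t₀| ≤ 1) (h32 : r ≤ |t₃ - t₂|) (h32' : |t₃ - t₂| ≤ 1)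
    (h20 : |t₂ - t₀| ≤ 1) (b2 : |a₂| ≤ B) (b3 : |a₃| ≤ B)
    (c02 : |s₂ - s₀ + (t₂ - t₀) * (a₀ + a₂)| ≤ ε) (c03 : |s₃ - s₀ + (t₃ - t₀) * (a₀ + a₃)| ≤ ε)
    (c23 : |s₃ - s₂ + (t₃ - t₂) * (a₂ + a₃)| ≤ ε) (c12 : |s₂ - s₁ + (t₂ - t₁) * (a₁ + a₂)| ≤ ε)
    (c13 : |s₃ - s₁ + (t₃ - t₁) * (a₁ + a₃)| ≤ ε)
    (hn : |s₁ - s₀ - (t₁ - t₀) * a₀| ≤ η * |t₁ - t₀|) :
    |a₀| ≤ η + τ₂ * B / r + 6 * ε / (r * τ₁) := by
  set X02 := s₂ - s₀ + (t₂ - t₀) * (a₀ + a₂) with hX02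
  set X03 := s₃ - s₀ + (t₃ - t₀) * (a₀ + a₃) with hX03
  set X23 := s₃ - s₂ + (t₃ - t₂) * (a₂ + a₃) with hX23
  set X12 := s₂ - s₁ + (t₂ - t₁) * (a₁ + a₂) with hX12
  set X13 := s₃ - s₁ + (t₃ - t₁) * (a₁ + a₃) with hX13
  set N := s₁ - s₀ - (t₁ - t₀) * a₀ with hN
  set τ := t₁ - t₀ with hτdef
  set D := t₃ - t₂ with hD
  set C0 := -(X02 + X23 - X03) with hC0
  set C1 := -(X12 + X23 - X13) with hC1
  set W := X02 - X12 - N with hW
  have key : 3 * (τ * D * a₀) = D * W - τ * τ * (a₃ - a₂) - τ * (C1 - 2 * C0) +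
      (t₂ - t₀) * (C1 - C0) := by
    rw [hW, hC1, hC0, hN, hX02, hX03, hX23, hX12, hX13, hτdef, hD]
    ring
  have hC0' : |C0| ≤ 3 * ε := by
    rw [abs_le] at c02 c23 c03 ⊢
    constructor <;> rw [hC0] <;> linarith only [c02, c03, c23, c02.1, c02.2, c23.1, c23.2, c03.1, c03.2]
  have hC1' : |C1| ≤ 3 * ε := by
    rw [abs_le] at c12 c23 c13 ⊢
    constructor <;> rw [hC1] <;> linarith only [c23, c12, c13, c12.1, c12.2, c23.1, c23.2, c13.1, c13.2]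
  have hW' : |W| ≤ 2 * ε + η * |τ| := by
    rw [abs_le] at c02 c12 hn ⊢
    constructor <;> rw [hW] <;> linarith only [c02, c12, hn, c02.1, c02.2, c12.1, c12.2, hn.1, hn.2]
  have hΔ : |a₃ - a₂| ≤ 2 * B := by
    rw [abs_le] at b2 b3 ⊢
    constructor <;> linarith only [b2, b3, b2.1, b2.2, b3.1, b3.2]
  have hτ0 : 0 < |τ| := lt_of_lt_of_le hτ hτ1
  have hD0 : 0 < |D| := lt_of_lt_of_le hr h32
  have hC10 : |C1 - C0| ≤ 6 * ε := by
    rw [abs_le] at hC0' hC1' ⊢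
    constructor <;> linarith only [hC0', hC1', hC0'.1, hC0'.2, hC1'.1, hC1'.2]
  exact by
   have hC120 : |C1 - 2 * C0| ≤ 9 * ε := by
     rw [abs_le] at hC0' hC1' ⊢
     constructor <;> linarith only [hC0', hC1', hC0'.1, hC0'.2, hC1'.1, hC1'.2]
   have k1 : |3 * (τ * D * a₀)| ≤ 17 * ε + |D| * (η * |τ|) + |τ| * |τ| * (2 * B) := by
     rw [key]
     have e1 : |D * W| ≤ 2 * ε + |D| * (η * |τ|) := by
       rw [abs_mul]
       calc |D| * |W| ≤ |D| * (2 * ε + η * |τ|) := mul_le_mul_of_nonneg_left hW' (abs_nonneg _)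
         _ = |D| * (2 * ε) + |D| * (η * |τ|) := by ring
         _ ≤ 1 * (2 * ε) + |D| * (η * |τ|) := by
             have := mul_le_mul_of_nonneg_right h32' (by linarith only [hε] : (0 : ℝ) ≤ 2 * ε)
             linarith only [this]
         _ = _ := by ring
     have e2 : |τ * τ * (a₃ - a₂)| ≤ |τ| * |τ| * (2 * B) := by
       rw [abs_mul, abs_mul]
       exact mul_le_mul_of_nonneg_left hΔ (by positivity)
     have e3 : |τ * (C1 - 2 * C0)| ≤ 9 * ε := by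
       rw [abs_mul]
       calc |τ| * |C1 - 2 * C0| ≤ 1 * (9 * ε) :=
             mul_le_mul hτ3 hC120 (abs_nonneg _) (by norm_num)
         _ = _ := by ring
     have e4 : |(t₂ - t₀) * (C1 - C0)| ≤ 6 * ε := by
       rw [abs_mul]
       calc |t₂ - t₀| * |C1 - C0| ≤ 1 * (6 * ε) :=
             mul_le_mul h20 hC10 (abs_nonneg _) (by norm_num)
         _ = _ := by ring
     calc |D * W - τ * τ * (a₃ - a₂) - τ * (C1 - 2 * C0) + (t₂ - t₀) * (C1 - C0)|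
         ≤ |D * W - τ * τ * (a₃ - a₂) - τ * (C1 - 2 * C0)| + |(t₂ - t₀) * (C1 - C0)| :=
           abs_add_le _ _
       _ ≤ |D * W - τ * τ * (a₃ - a₂)| + |τ * (C1 - 2 * C0)| + |(t₂ - t₀) * (C1 - C0)| := by
           have := abs_sub (D * W - τ * τ * (a₃ - a₂)) (τ * (C1 - 2 * C0))
           linarith only [this]
       _ ≤ |D * W| + |τ * τ * (a₃ - a₂)| + |τ * (C1 - 2 * C0)| + |(t₂ - t₀) * (C1 - C0)| := by
           have := abs_sub (D * W) (τ * τ * (a₃ - a₂))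
           linarith only [this]
       _ ≤ _ := by linarith only [e1, e2, e3, e4]
   exact by
    have k2 : |3 * (τ * D * a₀)| = 3 * (|τ| * |D|) * |a₀| := by
      rw [abs_mul, abs_mul, abs_mul, abs_of_pos (by norm_num : (0 : ℝ) < 3)]
      ring
    rw [k2] at k1
    have hp : 0 < 3 * (|τ| * |D|) := by positivity
    have k3 : |a₀| ≤ (17 * ε + |D| * (η * |τ|) + |τ| * |τ| * (2 * B)) / (3 * (|τ| * |D|)) := by
      rw [le_div_iff₀ hp]
      linarith only [k1]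
    refine k3.trans ?_
    have s1 : (17 * ε + |D| * (η * |τ|) + |τ| * |τ| * (2 * B)) / (3 * (|τ| * |D|)) =
        17 / 3 * ε / (|D| * |τ|) + η / 3 + 2 / 3 * (|τ| * B / |D|) := by
      field_simp
    rw [s1]
    have s2 : 17 / 3 * ε / (|D| * |τ|) ≤ 6 * ε / (r * τ₁) := by
      have h1 : r * τ₁ ≤ |D| * |τ| := mul_le_mul h32 hτ1 hτ.le hD0.le
      calc 17 / 3 * ε / (|D| * |τ|) ≤ 17 / 3 * ε / (r * τ₁) :=
            div_le_div_of_nonneg_left (by positivity) (by positivity) h1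
        _ ≤ 6 * ε / (r * τ₁) := by
            apply div_le_div_of_nonneg_right _ (by positivity)
            linarith only [hε]
    have s3 : |τ| * B / |D| ≤ τ₂ * B / r := by
      have h1 : |τ| * B ≤ τ₂ * B := mul_le_mul_of_nonneg_right hτ2 hB
      have h2 : 0 ≤ τ₂ * B := le_trans (by positivity) h1
      calc |τ| * B / |D| ≤ τ₂ * B / |D| := div_le_div_of_nonneg_right h1 hD0.le
        _ ≤ τ₂ * B / r := div_le_div_of_nonneg_left h2 hr h32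
    have s4 : 0 ≤ τ₂ * B / r := le_trans (by positivity) s3
    linarith only [hη, s2, s3, s4]

/-- Two directions determine a small vector of the plane. -/
theorem two_dir {x y E₀ E₁ ε sg : ℝ} (hsg : 0 < sg) (hsg1 : sg ≤ 1) (h : sg ≤ |E₀ - E₁|)
    (hE : |E₀| ≤ 1) (h0 : |x + E₀ * y| ≤ ε) (h1 : |x + E₁ * y| ≤ ε) :
    |x| ≤ 3 * ε / sg ∧ |y| ≤ 3 * ε / sg := by
  have hε : 0 ≤ ε := le_trans (abs_nonneg _) h0
  have hd : |(E₀ - E₁) * y| ≤ 2 * ε := by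
    have e : (E₀ - E₁) * y = (x + E₀ * y) - (x + E₁ * y) := by ring
    rw [e]
    have := abs_sub (x + E₀ * y) (x + E₁ * y)
    linarith only [h0, h1, this]
  rw [abs_mul] at hd
  have hy : |y| ≤ 2 * ε / sg := by
    rw [le_div_iff₀ hsg]
    have : sg * |y| ≤ |E₀ - E₁| * |y| := mul_le_mul_of_nonneg_right h (abs_nonneg _)
    linarith only [hd, this]
  have hs : ε ≤ ε / sg := by
    rw [le_div_iff₀ hsg]
    nlinarith only [hsg1, hε]
  have e3 : 3 * ε / sg = 2 * ε / sg + ε / sg := by ring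
  have hx : |x| ≤ |x + E₀ * y| + |E₀ * y| := by
    have := abs_sub (x + E₀ * y) (E₀ * y)
    rwa [show x + E₀ * y - E₀ * y = x by ring] at this
  have hEy : |E₀ * y| ≤ |y| := by
    rw [abs_mul]
    have := mul_le_mul_of_nonneg_right hE (abs_nonneg y)
    linarith only [this]
  constructor
  · linarith only [h0, hy, hs, e3, hx, hEy]
  · have : 0 ≤ ε / sg := by positivity
    linarith only [hε, hy, hs, e3]

/-! ### Laws -/

section laws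

variable {Om Lam Ω₁ Ω₂ T : Type} [Fintype Om] [Fintype Ω₁] [Fintype Ω₂]

open Classical in
theorem law_congr_supp {q : Ω₁ → ℝ} (hq : ∀ w, 0 ≤ q w) {Z Z' : Ω₁ → T}
    (h : ∀ w, 0 < q w → Z w = Z' w) (z : T) : law q Z z = law q Z' z := by
  unfold law
  refine Finset.sum_congr rfl fun w _ => ?_
  rcases (hq w).lt_or_eq with h0 | h0
  · rw [h w h0]
  · rw [← h0]; simp

open Classical in
/-- The gluing only depends on the labels on the supports. -/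
theorem glue_congr_supp {q₁ : Ω₁ → ℝ} {q₂ : Ω₂ → ℝ} (h₁ : ∀ w, 0 ≤ q₁ w) (h₂ : ∀ w, 0 ≤ q₂ w)
    {Z₁ Z₁' : Ω₁ → T} {Z₂ Z₂' : Ω₂ → T} (e₁ : ∀ w, 0 < q₁ w → Z₁ w = Z₁' w)
    (e₂ : ∀ w, 0 < q₂ w → Z₂ w = Z₂' w) : glue q₁ q₂ Z₁ Z₂ = glue q₁ q₂ Z₁' Z₂' := by
  funext w
  unfold glue
  rcases (h₁ w.1).lt_or_eq with a | a
  · rcases (h₂ w.2).lt_or_eq with b | b
    · rw [e₁ _ a, e₂ _ b, law_congr_supp h₁ e₁]
    · rw [← b]; simp
  · rw [← a]; simp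

theorem Pr_pull {q : Ω₁ → ℝ} {p : Ω₂ → ℝ} {pr : Ω₁ → Ω₂} (h : Marg q p pr) (E : Set Ω₂) :
    Pr q {w | pr w ∈ E} = Pr p E := h.law (fun ω => ω ∈ E) True

open Classical in
theorem Pr_eq_sum (q : Ω₁ → ℝ) (E : Set Ω₁) : Pr q E = ∑ w, if w ∈ E then q w else 0 := by
  unfold Pr law
  refine Finset.sum_congr rfl fun w _ => ?_
  by_cases h : w ∈ E
  · simp [h]
  · simp [h]

theorem Pr_le_of {q : Ω₁ → ℝ} (hq : ∀ w, 0 ≤ q w) {E F : Set Ω₁}
    (h : ∀ w, 0 < q w → w ∈ E → w ∈ F) : Pr q E ≤ Pr q F := by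
  classical
  rw [Pr_eq_sum, Pr_eq_sum]
  refine Finset.sum_le_sum fun w _ => ?_
  by_cases hE : w ∈ E
  · rw [if_pos hE]
    rcases (hq w).lt_or_eq with h0 | h0
    · rw [if_pos (h w h0 hE)]
    · rw [← h0]; split_ifs <;> exact le_rfl
  · rw [if_neg hE]; split_ifs
    · exact hq w
    · exact le_rfl

theorem Pr_or {q : Ω₁ → ℝ} (hq : ∀ w, 0 ≤ q w) (E F : Set Ω₁) :
    Pr q (E ∪ F) ≤ Pr q E + Pr q F := by
  classical
  rw [Pr_eq_sum, Pr_eq_sum, Pr_eq_sum, ← Finset.sum_add_distrib]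
  refine Finset.sum_le_sum fun w _ => ?_
  have := hq w
  by_cases hE : w ∈ E <;> by_cases hF : w ∈ F <;> simp [hE, hF, this]

/-- A near pair and an independent pair on the same line: all four cross pairs are independent
pairs. -/
theorem cross {P : Om → ℝ} (hP : ∀ ω, 0 ≤ P ω) (L : Om → Lam) {Qn : Om × Om → ℝ}
    (hQ : ∀ w, 0 ≤ Qn w) (hL : ∀ w, 0 < Qn w → L w.1 = L w.2) {p₁ p₂ : Om × Om → Om}
    (h₁ : p₁ = Prod.fst ∨ p₁ = Prod.snd) (h₂ : p₂ = Prod.fst ∨ p₂ = Prod.snd)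
    (m₁ : Marg Qn P p₁) :
    Marg (glue Qn (dbl P L) (fun w => L w.1) (fun w => L w.1)) (dbl P L)
      (fun u => (p₁ u.1, p₂ u.2)) := by
  have m₂ : Marg (dbl P L) P p₂ := by
    rcases h₂ with rfl | rfl
    · exact dbl_fst hP
    · exact dbl_snd hP
  have e : glue Qn (dbl P L) (fun w => L w.1) (fun w => L w.1) =
      glue Qn (dbl P L) (fun w => L (p₁ w)) (fun w => L (p₂ w)) := by
    refine glue_congr_supp hQ (dbl_nonneg hP) ?_ ?_
    · intro w hw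
      rcases h₁ with rfl | rfl
      · rfl
      · exact hL w hw
    · intro w hw
      rcases h₂ with rfl | rfl
      · rfl
      · exact dbl_eq hP hw
  rw [e]
  exact m₁.glue (Z₁ := L) (Z₂ := L) m₂

end laws

/-! ### The relations -/

section rel

variable {Om Lam : Type} [Fintype Om]

/-- The data: law, line, time, direction, tilt, slope of the tilt, unit. -/
structure AD (Om Lam : Type) where
  P : Om → ℝ
  L : Om → Lam
  th : Om → ℝ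
  E : Om → ℝ
  S : Om → Fin 2 → ℝ
  La : Om → Fin 2 → ℝ
  B : Lam → ℝ

namespace AD

variable (d : AD Om Lam)

/-- The value of a covector on the direction of the fan at `ω`. -/
def ev (v : Fin 2 → ℝ) (ω : Om) : ℝ := v 0 + d.E ω * v 1

/-- The difference of the times. -/
def dt (w : Om × Om) : ℝ := d.th w.2 - d.th w.1

/-- `S₁ - S₀ - (t₁ - t₀) La`. -/
def nr (w : Om × Om) (ω : Om) (a : Fin 2) : ℝ := d.S w.2 a - d.S w.1 a - d.dt w * d.La ω a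

/-- `S₁ - S₀ + (t₁ - t₀) La`. -/
def mt (w : Om × Om) (ω : Om) (a : Fin 2) : ℝ := d.S w.2 a - d.S w.1 a + d.dt w * d.La ω a

/-- `S₁ - S₀ + (t₁ - t₀) (La₀ + La₁)`. -/
def Dv (w : Om × Om) (a : Fin 2) : ℝ :=
  d.S w.2 a - d.S w.1 a + d.dt w * (d.La w.1 a + d.La w.2 a)

/-- A good pair of stage A at a near scale. -/
def GN (η τ₁ τ₂ : ℝ) (w : Om × Om) : Prop :=
  τ₁ ≤ |d.dt w| ∧ |d.dt w| ≤ τ₂ ∧ ∀ a, |d.nr w w.1 a| ≤ η * d.B (d.L w.1) * |d.dt w|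

/-- A good pair at the scale of (C): stage A at both samples, and a mate. -/
def GC (η ε : ℝ) (w : Om × Om) : Prop :=
  0 < |d.dt w| ∧ (∀ a, |d.nr w w.1 a| ≤ η * d.B (d.L w.1) * |d.dt w|) ∧
    (∀ a, |d.nr w w.2 a| ≤ η * d.B (d.L w.1) * |d.dt w|) ∧
    |d.ev (d.mt w w.2) w.1| ≤ ε * d.B (d.L w.1) * |d.dt w|

/-- A good coarse pair: mates at both times; the directions and the times are separated. -/
def GM (ε sg r : ℝ) (w : Om × Om) : Prop :=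
  r ≤ |d.dt w| ∧ sg ≤ |d.E w.1 - d.E w.2| ∧ (∀ a, |d.La w.1 a| ≤ d.B (d.L w.1)) ∧
    (∀ a, |d.La w.2 a| ≤ d.B (d.L w.1)) ∧ |d.ev (d.mt w w.1) w.2| ≤ ε * d.B (d.L w.1) ∧
    |d.ev (d.mt w w.2) w.1| ≤ ε * d.B (d.L w.1)

/-- `La` vanishes on the direction of the fan. -/
def GE (ε : ℝ) (ω : Om) : Prop := |d.ev (d.La ω) ω| ≤ ε * d.B (d.L ω)

/-- The basic assumptions. -/
structure OK : Prop where
  law : IsLaw d.P
  th : ∀ ω, 0 ≤ d.th ω ∧ d.th ω ≤ 1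
  E : ∀ ω, |d.E ω| ≤ 1
  B : ∀ l, 0 ≤ d.B l

/-- A law of pairs of samples on one line. -/
structure Prs (Q : Om × Om → ℝ) : Prop where
  law : IsLaw Q
  fst : Marg Q d.P Prod.fst
  snd : Marg Q d.P Prod.snd
  line : ∀ w, 0 < Q w → d.L w.1 = d.L w.2

variable {d}

theorem OK.dt_le (h : d.OK) (w : Om × Om) : |d.dt w| ≤ 1 := by
  have h1 := h.th w.1
  have h2 := h.th w.2
  unfold dt
  rw [abs_le]
  constructor <;> linarith only [h1, h2, h1.1, h1.2, h2.1, h2.2]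

/-- **(C)**: `La` vanishes on the direction of the fan. -/
theorem GC.ev {η ε : ℝ} {w : Om × Om} (hE : |d.E w.1| ≤ 1) (h : d.GC η ε w) :
    d.GE (ε / 2 + 3 * η) w.1 := by
  obtain ⟨h0, h1, h2, h3⟩ := h
  unfold GE
  set b := d.B (d.L w.1) with hb
  set E := d.E w.1 with hEd
  set D := d.dt w with hD
  set a0 := d.La w.1 0 with ha0
  set a1 := d.La w.1 1 with ha1
  set c0 := d.La w.2 0 with hc0
  set c1 := d.La w.2 1 with hc1
  set s0 := d.S w.2 0 - d.S w.1 0 with hs0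
  set s1 := d.S w.2 1 - d.S w.1 1 with hs1
  have p0 : |s0 - D * a0| ≤ η * b * |D| := h1 0
  have p1 : |s1 - D * a1| ≤ η * b * |D| := h1 1
  have q0 : |s0 - D * c0| ≤ η * b * |D| := h2 0
  have q1 : |s1 - D * c1| ≤ η * b * |D| := h2 1
  have r0 : |(s0 + D * c0) + E * (s1 + D * c1)| ≤ ε * b * |D| := h3
  have hηb : 0 ≤ η * b * |D| := le_trans (abs_nonneg _) p0
  have mE : ∀ z : ℝ, |z| ≤ η * b * |D| → |E * z| ≤ η * b * |D| := by
    intro z hz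
    rw [abs_mul]
    calc |E| * |z| ≤ 1 * |z| := mul_le_mul_of_nonneg_right hE (abs_nonneg _)
      _ ≤ _ := by rw [one_mul]; exact hz
  have P1 := mE _ p1
  have Q1 := mE _ q1
  have id1 : 2 * (D * (a0 + E * a1)) = ((s0 + D * c0) + E * (s1 + D * c1)) +
      (s0 - D * c0) + E * (s1 - D * c1) - 2 * (s0 - D * a0) - 2 * (E * (s1 - D * a1)) := by
    ring
  have k : |D| * |a0 + E * a1| ≤ |D| * ((ε / 2 + 3 * η) * b) := by
    rw [← abs_mul]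
    rw [abs_le] at p0 P1 q0 Q1 r0 ⊢
    constructor <;> nlinarith only [p0, q0, r0, P1, Q1, p0.1, p0.2, P1.1, P1.2, q0.1, q0.2, Q1.1, Q1.2, r0.1, r0.2, id1]
  exact le_of_mul_le_mul_left k h0

/-- **(D)**: the coarse relation. -/
theorem GM.Dv_le {ε ε' sg r : ℝ} {w : Om × Om} (hd : d.OK) (hsg : 0 < sg) (hsg1 : sg ≤ 1)
    (h : d.GM ε sg r w) (hL : d.L w.1 = d.L w.2) (h1 : d.GE ε' w.1) (h2 : d.GE ε' w.2)
    (a : Fin 2) : |d.Dv w a| ≤ 3 * (ε + ε') * d.B (d.L w.1) / sg := by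
  obtain ⟨_, g2, _, _, g5, g6⟩ := h
  unfold GE at h1 h2
  rw [← hL] at h2
  set b := d.B (d.L w.1) with hb
  have hdt := hd.dt_le w
  have m1 : |d.dt w * d.ev (d.La w.1) w.1| ≤ ε' * b := by
    rw [abs_mul]
    calc |d.dt w| * |d.ev (d.La w.1) w.1| ≤ 1 * |d.ev (d.La w.1) w.1| :=
          mul_le_mul_of_nonneg_right hdt (abs_nonneg _)
      _ ≤ _ := by rw [one_mul]; exact h1
  have m2 : |d.dt w * d.ev (d.La w.2) w.2| ≤ ε' * b := by
    rw [abs_mul]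
    calc |d.dt w| * |d.ev (d.La w.2) w.2| ≤ 1 * |d.ev (d.La w.2) w.2| :=
          mul_le_mul_of_nonneg_right hdt (abs_nonneg _)
      _ ≤ _ := by rw [one_mul]; exact h2
  have e1 : d.Dv w 0 + d.E w.1 * d.Dv w 1 =
      d.ev (d.mt w w.2) w.1 + d.dt w * d.ev (d.La w.1) w.1 := by
    unfold Dv ev mt
    ring
  have e2 : d.Dv w 0 + d.E w.2 * d.Dv w 1 =
      d.ev (d.mt w w.1) w.2 + d.dt w * d.ev (d.La w.2) w.2 := by
    unfold Dv ev mt
    ring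
  have n1 : |d.Dv w 0 + d.E w.1 * d.Dv w 1| ≤ (ε + ε') * b := by
    rw [e1]
    refine (abs_add_le _ _).trans ?_
    linarith only [g6, m1]
  have n2 : |d.Dv w 0 + d.E w.2 * d.Dv w 1| ≤ (ε + ε') * b := by
    rw [e2]
    refine (abs_add_le _ _).trans ?_
    linarith only [g5, m2]
  have := two_dir hsg hsg1 g2 (hd.E w.1) n1 n2
  have e3 : 3 * (ε + ε') * b / sg = 3 * ((ε + ε') * b) / sg := by ring
  rw [e3]
  fin_cases a
  · exact this.1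
  · exact this.2

open Classical in
/-- **The algebra of OCS.** -/
theorem alg (hd : d.OK) {Qn Q4 : Om × Om → ℝ} (hn : d.Prs Qn) (h4 : d.Prs Q4)
    {η₄ ε₄ ηn τ₁ τ₂ ε₅ sg r : ℝ} (hη : 0 ≤ ηn) (hη4 : 0 ≤ η₄) (hε4 : 0 ≤ ε₄) (hε5 : 0 ≤ ε₅)
    (hτ : 0 < τ₁) (hsg : 0 < sg) (hsg1 : sg ≤ 1) (hr : 0 < r) :
    Pr d.P {ω | ∃ a, (ηn + τ₂ / r + 18 * (ε₅ + ε₄ / 2 + 3 * η₄) / (sg * r * τ₁)) *
        d.B (d.L ω) < |d.La ω a|} ≤
      Pr Qn {w | ¬ d.GN ηn τ₁ τ₂ w} +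
        5 * (Pr (dbl d.P d.L) {w | ¬ d.GM ε₅ sg r w} + 2 * Pr Q4 {w | ¬ d.GC η₄ ε₄ w}) := by
  set ε' := ε₄ / 2 + 3 * η₄ with hε'
  have hP := hd.law.nonneg
  -- the directions
  have cE : Pr d.P {ω | ¬ d.GE ε' ω} ≤ Pr Q4 {w | ¬ d.GC η₄ ε₄ w} := by
    rw [← Pr_pull h4.fst]
    refine Pr_le_of h4.law.nonneg fun w _ hw => ?_
    intro hc
    exact hw (hc.ev (hd.E w.1))
  -- the good coarse pairs
  set Gc : Set (Om × Om) := {w | d.GM ε₅ sg r w ∧ d.GE ε' w.1 ∧ d.GE ε' w.2} with hGc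
  have cG : Pr (dbl d.P d.L) Gcᶜ ≤
      Pr (dbl d.P d.L) {w | ¬ d.GM ε₅ sg r w} + 2 * Pr Q4 {w | ¬ d.GC η₄ ε₄ w} := by
    have h1 : Pr (dbl d.P d.L) Gcᶜ ≤ Pr (dbl d.P d.L)
        ({w | ¬ d.GM ε₅ sg r w} ∪ ({w | Prod.fst w ∈ {ω | ¬ d.GE ε' ω}} ∪
          {w | Prod.snd w ∈ {ω | ¬ d.GE ε' ω}})) := by
      refine Pr_le_of (dbl_nonneg hP) fun w _ hw => ?_
      by_contra hcon
      apply hw
      simp only [Set.mem_union, not_or] at hcon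
      obtain ⟨c1, c2, c3⟩ := hcon
      exact ⟨not_not.1 c1, not_not.1 c2, not_not.1 c3⟩
    have h2 := Pr_or (dbl_nonneg (b := d.L) hP) {w | ¬ d.GM ε₅ sg r w}
      ({w | Prod.fst w ∈ {ω | ¬ d.GE ε' ω}} ∪ {w | Prod.snd w ∈ {ω | ¬ d.GE ε' ω}})
    have h3 := Pr_or (dbl_nonneg (b := d.L) hP) {w | Prod.fst w ∈ {ω | ¬ d.GE ε' ω}}
      {w | Prod.snd w ∈ {ω | ¬ d.GE ε' ω}}
    have h4' : Pr (dbl d.P d.L) {w | Prod.fst w ∈ {ω | ¬ d.GE ε' ω}} =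
        Pr d.P {ω | ¬ d.GE ε' ω} := Pr_pull (dbl_fst hP) _
    have h5 : Pr (dbl d.P d.L) {w | Prod.snd w ∈ {ω | ¬ d.GE ε' ω}} =
        Pr d.P {ω | ¬ d.GE ε' ω} := Pr_pull (dbl_snd hP) _
    linarith only [cE, h1, h2, h3, h4', h5]
  -- the law of four samples
  exact by
   set R := glue Qn (dbl d.P d.L) (fun w => d.L w.1) (fun w => d.L w.1) with hR
   have hlaw : ∀ z, law Qn (fun w => d.L w.1) z = law (dbl d.P d.L) (fun w => d.L w.1) z := by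
     intro z
     rw [dbl_law hP z]
     exact hn.fst.law d.L z
   have hR0 : ∀ u, 0 ≤ R u := fun u => glue_nonneg hn.law.nonneg (dbl_nonneg hP) u
   have mA : Marg R Qn (fun u => u.1) := marg_fst hn.law.nonneg hlaw
   have mB : Marg R (dbl d.P d.L) (fun u => u.2) := marg_snd (dbl_nonneg hP) hlaw
   have x1 := cross hP d.L hn.law.nonneg hn.line (p₁ := Prod.fst) (p₂ := Prod.fst) (Or.inl rfl)
     (Or.inl rfl) hn.fst
   have x2 := cross hP d.L hn.law.nonneg hn.line (p₁ := Prod.fst) (p₂ := Prod.snd) (Or.inl rfl)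
     (Or.inr rfl) hn.fst
   have x3 := cross hP d.L hn.law.nonneg hn.line (p₁ := Prod.snd) (p₂ := Prod.fst) (Or.inr rfl)
     (Or.inl rfl) hn.snd
   have x4 := cross hP d.L hn.law.nonneg hn.line (p₁ := Prod.snd) (p₂ := Prod.snd) (Or.inr rfl)
     (Or.inr rfl) hn.snd
   have start : Pr d.P {ω | ∃ a, (ηn + τ₂ / r + 18 * (ε₅ + ε₄ / 2 + 3 * η₄) / (sg * r * τ₁)) *
       d.B (d.L ω) < |d.La ω a|} =
       Pr R {u | Prod.fst u.1 ∈ {ω | ∃ a, (ηn + τ₂ / r +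
         18 * (ε₅ + ε₄ / 2 + 3 * η₄) / (sg * r * τ₁)) * d.B (d.L ω) < |d.La ω a|}} :=
     (Pr_pull (mA.comp hn.fst) _).symm
   rw [start]
   set B0 : Set ((Om × Om) × (Om × Om)) := {u | u.1 ∈ {w | ¬ d.GN ηn τ₁ τ₂ w}} with hB0
   set B1 : Set ((Om × Om) × (Om × Om)) := {u | (u.1.1, u.2.1) ∈ Gcᶜ} with hB1
   set B2 : Set ((Om × Om) × (Om × Om)) := {u | (u.1.1, u.2.2) ∈ Gcᶜ} with hB2
   set B3 : Set ((Om × Om) × (Om × Om)) := {u | (u.1.2, u.2.1) ∈ Gcᶜ} with hB3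
   set B4 : Set ((Om × Om) × (Om × Om)) := {u | (u.1.2, u.2.2) ∈ Gcᶜ} with hB4
   set B5 : Set ((Om × Om) × (Om × Om)) := {u | u.2 ∈ Gcᶜ} with hB5
   have p0 : Pr R B0 = Pr Qn {w | ¬ d.GN ηn τ₁ τ₂ w} := Pr_pull mA _
   have p1 : Pr R B1 = Pr (dbl d.P d.L) Gcᶜ := Pr_pull x1 _
   exact by
    have p2 : Pr R B2 = Pr (dbl d.P d.L) Gcᶜ := Pr_pull x2 _
    have p3 : Pr R B3 = Pr (dbl d.P d.L) Gcᶜ := Pr_pull x3 _
    have p4 : Pr R B4 = Pr (dbl d.P d.L) Gcᶜ := Pr_pull x4 _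
    have p5 : Pr R B5 = Pr (dbl d.P d.L) Gcᶜ := Pr_pull mB _
    have incl : Pr R {u | Prod.fst u.1 ∈ {ω | ∃ a, (ηn + τ₂ / r +
          18 * (ε₅ + ε₄ / 2 + 3 * η₄) / (sg * r * τ₁)) * d.B (d.L ω) < |d.La ω a|}} ≤
        Pr R (B0 ∪ (B1 ∪ (B2 ∪ (B3 ∪ (B4 ∪ B5))))) := by
      refine Pr_le_of hR0 fun u hu hw => ?_
      by_contra hcon
      simp only [Set.mem_union, not_or] at hcon
      obtain ⟨c0, c1, c2, c3, c4, c5⟩ := hcon
      obtain ⟨a, ha⟩ := hw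
      have gN : d.GN ηn τ₁ τ₂ u.1 := not_not.1 c0
      have g1 : (u.1.1, u.2.1) ∈ Gc := not_not.1 c1
      have g2 : (u.1.1, u.2.2) ∈ Gc := not_not.1 c2
      have g3 : (u.1.2, u.2.1) ∈ Gc := not_not.1 c3
      have g4 : (u.1.2, u.2.2) ∈ Gc := not_not.1 c4
      have g5 : u.2 ∈ Gc := not_not.1 c5
      obtain ⟨hu1, hu2, hu3⟩ := (glue_pos_iff hn.law.nonneg (dbl_nonneg hP) u).1 hu
      have l1 : d.L u.1.1 = d.L u.1.2 := hn.line _ hu1
      have l2 : d.L u.2.1 = d.L u.2.2 := dbl_eq hP hu2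
      have l3 : d.L u.1.1 = d.L u.2.1 := hu3
      set b := d.B (d.L u.1.1) with hb
      have hb0 : 0 ≤ b := hd.B _
      have D1 := g1.1.Dv_le hd hsg hsg1 l3 g1.2.1 g1.2.2 a
      have D2 := g2.1.Dv_le hd hsg hsg1 (l3.trans l2) g2.2.1 g2.2.2 a
      have D3 := g3.1.Dv_le hd hsg hsg1 (l1.symm.trans l3) g3.2.1 g3.2.2 a
      have D4 := g4.1.Dv_le hd hsg hsg1 (l1.symm.trans (l3.trans l2)) g4.2.1 g4.2.2 a
      have D5 := g5.1.Dv_le hd hsg hsg1 l2 g5.2.1 g5.2.2 a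
      have b1 : d.B (d.L (u.1.2, u.2.1).1) = b := by rw [hb, l1]
      have b2 : d.B (d.L (u.1.2, u.2.2).1) = b := by rw [hb, l1]
      have b5 : d.B (d.L u.2.1) = b := by rw [hb, l3]
      rw [b1] at D3
      rw [b2] at D4
      rw [b5] at D5
      obtain ⟨gN1, gN2, gN3⟩ := gN
      have n1 := gN3 a
      have La2 : |d.La u.2.1 a| ≤ b := by
        have := g5.1.2.2.1 a
        rwa [b5] at this
      have La3 : |d.La u.2.2 a| ≤ b := by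
        have := g5.1.2.2.2.1 a
        rwa [b5] at this
      have hε : 0 ≤ 3 * (ε₅ + ε') * b / sg := by
        have : 0 ≤ ε' := by positivity
        positivity
      have hn' : |d.S u.1.2 a - d.S u.1.1 a - (d.th u.1.2 - d.th u.1.1) * d.La u.1.1 a| ≤
          (ηn * b) * |d.th u.1.2 - d.th u.1.1| := n1
      have fin := core (t₀ := d.th u.1.1) (t₁ := d.th u.1.2) (t₂ := d.th u.2.1) (t₃ := d.th u.2.2)
        (s₀ := d.S u.1.1 a) (s₁ := d.S u.1.2 a) (s₂ := d.S u.2.1 a) (s₃ := d.S u.2.2 a)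
        (a₀ := d.La u.1.1 a) (a₁ := d.La u.1.2 a) (a₂ := d.La u.2.1 a) (a₃ := d.La u.2.2 a)
        (ε := 3 * (ε₅ + ε') * b / sg) (η := ηn * b) (B := b) (r := r) (τ₁ := τ₁) (τ₂ := τ₂)
        hr hb0 hε (by positivity) hτ gN1 gN2 (hd.dt_le u.1) g5.1.1 (hd.dt_le u.2)
        (hd.dt_le (u.1.1, u.2.1)) La2 La3 D1 D2 D5 D3 D4 hn'
      have e : (ηn * b) + τ₂ * b / r + 6 * (3 * (ε₅ + ε') * b / sg) / (r * τ₁) =
          (ηn + τ₂ / r + 18 * (ε₅ + ε₄ / 2 + 3 * η₄) / (sg * r * τ₁)) * b := by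
        rw [hε']
        field_simp
        ring
      rw [e] at fin
      exact absurd fin (not_le.2 ha)
    exact by
     have u1 := Pr_or hR0 B0 (B1 ∪ (B2 ∪ (B3 ∪ (B4 ∪ B5))))
     have u2 := Pr_or hR0 B1 (B2 ∪ (B3 ∪ (B4 ∪ B5)))
     have u3 := Pr_or hR0 B2 (B3 ∪ (B4 ∪ B5))
     have u4 := Pr_or hR0 B3 (B4 ∪ B5)
     have u5 := Pr_or hR0 B4 B5
     linarith only [cG, p0, p1, p2, p3, p4, p5, incl, u1, u2, u3, u4, u5]

end AD

end rel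

end Pool.OCSA
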