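import Pool.Agent.H63.OCS.Jen
import Pool.Agent.H88.OCS.Stmts

/-!
# THEOREM OCS: the row FIN (one level)
-/

set_option autoImplicit false

namespace Pool.OCS

open Finset Real
open Pool.Agent.H49.Ent Pool.Agent.H32.Dense Pool.STK Pool.KAF Pool.OCSA

section gen

/-- A scale with a small term. -/
theorem exists_scale {f : ℕ → ℝ} (hf : ∀ i, 0 ≤ f i) {a b c N : ℕ} {ε C : ℝ} (hab : a < b)
    (hbc : b ≤ c) (hs : ∑ i ∈ Finset.Ico a c, f i ≤ ε * N) (hε : 0 ≤ ε)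
    (hC : (N : ℝ) ≤ C * ((b - a : ℕ) : ℝ)) : ∃ j, a ≤ j ∧ j < b ∧ f j ≤ C * ε := by
  have h1 : ∑ i ∈ Finset.Ico a b, f i ≤ ∑ i ∈ Finset.Ico a b, C * ε := by
    have h2 : ∑ i ∈ Finset.Ico a b, f i ≤ ∑ i ∈ Finset.Ico a c, f i :=
      Finset.sum_le_sum_of_subset_of_nonneg (Finset.Ico_subset_Ico_right hbc)
        fun i _ _ => hf i
    have h3 : ∑ i ∈ Finset.Ico a b, C * ε = ((b - a : ℕ) : ℝ) * (C * ε) := by
      rw [Finset.sum_const, Nat.card_Ico, nsmul_eq_mul]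
    rw [h3]
    refine h2.trans (hs.trans ?_)
    have := mul_le_mul_of_nonneg_left hC hε
    linarith only [this]
  obtain ⟨j, hj, hj'⟩ := Finset.exists_le_of_sum_le
    (Finset.nonempty_Ico.2 hab) h1
  rw [Finset.mem_Ico] at hj
  exact ⟨j, hj.1, hj.2, hj'⟩

theorem Pr_nn {Ω : Type} [Fintype Ω] {q : Ω → ℝ} (hq : ∀ w, 0 ≤ q w) (E : Set Ω) :
    0 ≤ Pr q E := by
  classical
  rw [Pr_eq_sum]
  refine Finset.sum_nonneg fun w _ => ?_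
  split_ifs
  · exact hq w
  · exact le_rfl

theorem Pr_swap {Ω β : Type} [Fintype Ω] (p : Ω → ℝ) (b : Ω → β) (E : Set (Ω × Ω)) :
    Pr (dbl p b) {w | (w.2, w.1) ∈ E} = Pr (dbl p b) E :=
  Pr_pull (dbl_symm p b) E

end gen

section det

variable (d : Dat)

/-- The data of the algebra. -/
noncomputable def toAD (Λ : d.Om → Fin 2 → ℝ) (B : ℝ) : AD d.Om d.Lam where
  P := d.P
  L := d.L
  th := fun ω => d.th (d.T ω)
  E := fun ω => d.E (d.T ω)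
  S := fun ω => d.S (d.T ω)
  La := Λ
  B := fun _ => B

variable {d} {Λ : d.Om → Fin 2 → ℝ} {B : ℝ}

theorem toAD_ok {A : ℕ} (h : d.OK A) (hB : 0 ≤ B) : (toAD d Λ B).OK where
  law := h.law
  th := fun _ => ⟨(h.hth _).1, (h.hth _).2.le⟩
  E := fun _ => h.hE _
  B := fun _ => hB

theorem ta_le {A : ℕ} (h : d.OK A) (w : d.Om × d.Om) : |d.ta w| ≤ 1 :=
  (toAD_ok (Λ := fun _ _ => 0) (B := 0) h le_rfl).dt_le w

theorem ta_le_of {A : ℕ} (h : d.OK A) {j : ℕ} {w : d.Om × d.Om} (hw : 0 < d.Qp j w) :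
    |d.ta w| ≤ (2 : ℝ) ^ (-(j : ℤ)) := by
  have e := dbl_eq h.law.nonneg hw
  have e1 : d.Ti j w.1 = d.Ti j w.2 := (Prod.ext_iff.1 e).2
  unfold Dat.Ti at e1
  have a1 := Int.floor_le ((2 : ℝ) ^ j * d.th (d.T w.1))
  have a2 := Int.lt_floor_add_one ((2 : ℝ) ^ j * d.th (d.T w.1))
  have b1 := Int.floor_le ((2 : ℝ) ^ j * d.th (d.T w.2))
  have b2 := Int.lt_floor_add_one ((2 : ℝ) ^ j * d.th (d.T w.2))
  rw [e1] at a1 a2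
  have hp : (0 : ℝ) < 2 ^ j := by positivity
  have h1 : (2 : ℝ) ^ j * |d.ta w| ≤ 1 := by
    have : (2 : ℝ) ^ j * |d.ta w| = |(2 : ℝ) ^ j * d.ta w| := by
      rw [abs_mul, abs_of_pos hp]
    rw [this]
    unfold Dat.ta
    rw [mul_sub, abs_le]
    constructor <;> linarith
  rw [zpow_neg, zpow_natCast]
  rw [← mul_one ((2 : ℝ) ^ j)⁻¹, le_inv_mul_iff₀ hp]
  exact h1

theorem line_eq {A : ℕ} (h : d.OK A) {j : ℕ} {w : d.Om × d.Om} (hw : 0 < d.Qp j w) :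
    d.L w.1 = d.L w.2 := (Prod.ext_iff.1 (dbl_eq h.law.nonneg hw)).1

theorem Qp0 {A : ℕ} (h : d.OK A) : d.Qp 0 = dbl d.P d.L := by
  classical
  have h0 : ∀ ω, d.Ti 0 ω = 0 := by
    intro ω
    unfold Dat.Ti
    rw [pow_zero, one_mul, Int.floor_eq_zero_iff]
    exact ⟨(h.hth _).1, (h.hth _).2⟩
  funext w
  have e : ∀ l, Pool.Agent.H49.Ent.law d.P (fun ω => (d.L ω, d.Ti 0 ω)) (l, 0) =
      Pool.Agent.H49.Ent.law d.P d.L l := by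
    intro l
    unfold Pool.Agent.H49.Ent.law
    refine Finset.sum_congr rfl fun ω _ => ?_
    simp only [h0, Prod.mk.injEq, and_true]
  have hiff : ((d.L w.1, d.Ti 0 w.1) = (d.L w.2, d.Ti 0 w.2)) ↔ d.L w.1 = d.L w.2 := by
    rw [h0, h0]
    simp
  unfold Dat.Qp dbl glue
  by_cases hl : d.L w.1 = d.L w.2
  · rw [if_pos (hiff.2 hl), if_pos hl]
    beta_reduce
    rw [h0, e]
  · rw [if_neg (fun h => hl (hiff.1 h)), if_neg hl]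

/-- Stage A at a pair. -/
theorem nr_of {c : ℝ} {w : d.Om × d.Om}
    (h : ‖fun r => d.sg w r - d.ta w * Λ w.1 r‖ ≤ c * |d.ta w|) (a : Fin 2) :
    |(toAD d Λ B).nr w w.1 a| ≤ c * |(toAD d Λ B).dt w| := by
  have h1 := norm_le_pi_norm (fun r => d.sg w r - d.ta w * Λ w.1 r) a
  exact h1.trans h

/-- Stage A at the reversed pair. -/
theorem nr_of' {c : ℝ} {w : d.Om × d.Om}
    (h : ‖fun r => d.sg (w.2, w.1) r - d.ta (w.2, w.1) * Λ w.2 r‖ ≤ c * |d.ta (w.2, w.1)|)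
    (a : Fin 2) : |(toAD d Λ B).nr w w.2 a| ≤ c * |(toAD d Λ B).dt w| := by
  have h1 := norm_le_pi_norm (fun r => d.sg (w.2, w.1) r - d.ta (w.2, w.1) * Λ w.2 r) a
  have e1 : |(toAD d Λ B).nr w w.2 a| =
      ‖(fun r => d.sg (w.2, w.1) r - d.ta (w.2, w.1) * Λ w.2 r) a‖ := by
    rw [Real.norm_eq_abs, ← abs_neg]
    congr 1
    show -(d.S (d.T w.2) a - d.S (d.T w.1) a - (d.th (d.T w.2) - d.th (d.T w.1)) * Λ w.2 a) =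
      d.S (d.T w.1) a - d.S (d.T w.2) a - (d.th (d.T w.1) - d.th (d.T w.2)) * Λ w.2 a
    ring
  have e2 : |d.ta (w.2, w.1)| = |(toAD d Λ B).dt w| := by
    rw [← abs_neg]
    congr 1
    show -(d.th (d.T w.1) - d.th (d.T w.2)) = d.th (d.T w.2) - d.th (d.T w.1)
    ring
  rw [e1, ← e2]
  exact h1.trans h

/-- The mates at the pair. -/
theorem mt_of {c : ℝ} {w : d.Om × d.Om}
    (h : |∑ r, (d.sg w r + d.ta w * Λ w.1 r) * d.e (d.T w.2) r| ≤ c * |d.ta w|) :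
    |(toAD d Λ B).ev ((toAD d Λ B).mt w w.1) w.2| ≤ c * |(toAD d Λ B).dt w| := by
  have e1 : (toAD d Λ B).ev ((toAD d Λ B).mt w w.1) w.2 =
      ∑ r, (d.sg w r + d.ta w * Λ w.1 r) * d.e (d.T w.2) r := by
    rw [Fin.sum_univ_two]
    show (d.S (d.T w.2) 0 - d.S (d.T w.1) 0 + (d.th (d.T w.2) - d.th (d.T w.1)) * Λ w.1 0) +
      d.E (d.T w.2) * (d.S (d.T w.2) 1 - d.S (d.T w.1) 1 +
        (d.th (d.T w.2) - d.th (d.T w.1)) * Λ w.1 1) =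
      (d.S (d.T w.2) 0 - d.S (d.T w.1) 0 + (d.th (d.T w.2) - d.th (d.T w.1)) * Λ w.1 0) * 1 +
      (d.S (d.T w.2) 1 - d.S (d.T w.1) 1 + (d.th (d.T w.2) - d.th (d.T w.1)) * Λ w.1 1) *
        d.E (d.T w.2)
    ring
  rw [e1]
  exact h

/-- The mates at the reversed pair. -/
theorem mt_of' {c : ℝ} {w : d.Om × d.Om}
    (h : |∑ r, (d.sg (w.2, w.1) r + d.ta (w.2, w.1) * Λ w.2 r) * d.e (d.T w.1) r| ≤
      c * |d.ta (w.2, w.1)|) :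
    |(toAD d Λ B).ev ((toAD d Λ B).mt w w.2) w.1| ≤ c * |(toAD d Λ B).dt w| := by
  have e1 : (toAD d Λ B).ev ((toAD d Λ B).mt w w.2) w.1 =
      -∑ r, (d.sg (w.2, w.1) r + d.ta (w.2, w.1) * Λ w.2 r) * d.e (d.T w.1) r := by
    rw [Fin.sum_univ_two]
    show (d.S (d.T w.2) 0 - d.S (d.T w.1) 0 + (d.th (d.T w.2) - d.th (d.T w.1)) * Λ w.2 0) +
      d.E (d.T w.1) * (d.S (d.T w.2) 1 - d.S (d.T w.1) 1 +
        (d.th (d.T w.2) - d.th (d.T w.1)) * Λ w.2 1) =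
      -((d.S (d.T w.1) 0 - d.S (d.T w.2) 0 + (d.th (d.T w.1) - d.th (d.T w.2)) * Λ w.2 0) * 1 +
      (d.S (d.T w.1) 1 - d.S (d.T w.2) 1 + (d.th (d.T w.1) - d.th (d.T w.2)) * Λ w.2 1) *
        d.E (d.T w.1))
    ring
  have e2 : |d.ta (w.2, w.1)| = |(toAD d Λ B).dt w| := by
    rw [← abs_neg]
    congr 1
    show -(d.th (d.T w.1) - d.th (d.T w.2)) = d.th (d.T w.2) - d.th (d.T w.1)
    ring
  rw [e1, abs_neg, ← e2]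
  exact h

end det

section quad

variable {Om Lam : Type} [Fintype Om] {d : AD Om Lam}

/-- Four samples on one line. -/
theorem quad (hd : d.OK) {u : (Om × Om) × (Om × Om)} {ηn τ₁ τ₂ ε₅ ε' sg r b : ℝ}
    (hη : 0 ≤ ηn) (hε5 : 0 ≤ ε₅) (hε' : 0 ≤ ε') (hτ : 0 < τ₁) (hsg : 0 < sg) (hsg1 : sg ≤ 1)
    (hr : 0 < r) (hb : ∀ l, d.B l = b) (l1 : d.L u.1.1 = d.L u.1.2) (l2 : d.L u.2.1 = d.L u.2.2)
    (l3 : d.L u.1.1 = d.L u.2.1) (gN : d.GN ηn τ₁ τ₂ u.1)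
    (g1 : d.GM ε₅ sg r (u.1.1, u.2.1) ∧ d.GE ε' u.1.1 ∧ d.GE ε' u.2.1)
    (g2 : d.GM ε₅ sg r (u.1.1, u.2.2) ∧ d.GE ε' u.1.1 ∧ d.GE ε' u.2.2)
    (g3 : d.GM ε₅ sg r (u.1.2, u.2.1) ∧ d.GE ε' u.1.2 ∧ d.GE ε' u.2.1)
    (g4 : d.GM ε₅ sg r (u.1.2, u.2.2) ∧ d.GE ε' u.1.2 ∧ d.GE ε' u.2.2)
    (g5 : d.GM ε₅ sg r u.2 ∧ d.GE ε' u.2.1 ∧ d.GE ε' u.2.2) (a : Fin 2) :
    |d.La u.1.1 a| ≤ (ηn + τ₂ / r + 18 * (ε₅ + ε') / (sg * r * τ₁)) * b := by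
  have hb0 : 0 ≤ b := by rw [← hb (d.L u.1.1)]; exact hd.B _
  have D1 := g1.1.Dv_le hd hsg hsg1 l3 g1.2.1 g1.2.2 a
  have D2 := g2.1.Dv_le hd hsg hsg1 (l3.trans l2) g2.2.1 g2.2.2 a
  have D3 := g3.1.Dv_le hd hsg hsg1 (l1.symm.trans l3) g3.2.1 g3.2.2 a
  have D4 := g4.1.Dv_le hd hsg hsg1 (l1.symm.trans (l3.trans l2)) g4.2.1 g4.2.2 a
  have D5 := g5.1.Dv_le hd hsg hsg1 l2 g5.2.1 g5.2.2 a
  rw [hb] at D1 D2 D3 D4 D5
  obtain ⟨gN1, gN2, gN3⟩ := gN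
  have n1 := gN3 a
  rw [hb] at n1
  have La2 : |d.La u.2.1 a| ≤ b := by
    have := g5.1.2.2.1 a
    rwa [hb] at this
  have La3 : |d.La u.2.2 a| ≤ b := by
    have := g5.1.2.2.2.1 a
    rwa [hb] at this
  have hε : 0 ≤ 3 * (ε₅ + ε') * b / sg := by positivity
  have hn' : |d.S u.1.2 a - d.S u.1.1 a - (d.th u.1.2 - d.th u.1.1) * d.La u.1.1 a| ≤
      (ηn * b) * |d.th u.1.2 - d.th u.1.1| := n1
  have fin := core (t₀ := d.th u.1.1) (t₁ := d.th u.1.2) (t₂ := d.th u.2.1) (t₃ := d.th u.2.2)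
    (s₀ := d.S u.1.1 a) (s₁ := d.S u.1.2 a) (s₂ := d.S u.2.1 a) (s₃ := d.S u.2.2 a)
    (a₀ := d.La u.1.1 a) (a₁ := d.La u.1.2 a) (a₂ := d.La u.2.1 a) (a₃ := d.La u.2.2 a)
    (ε := 3 * (ε₅ + ε') * b / sg) (η := ηn * b) (B := b) (r := r) (τ₁ := τ₁) (τ₂ := τ₂)
    hr hb0 hε (by positivity) hτ gN1 gN2 (hd.dt_le u.1) g5.1.1 (hd.dt_le u.2)
    (hd.dt_le (u.1.1, u.2.1)) La2 La3 D1 D2 D5 D3 D4 hn'
  have e : (ηn * b) + τ₂ * b / r + 6 * (3 * (ε₅ + ε') * b / sg) / (r * τ₁) =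
      (ηn + τ₂ / r + 18 * (ε₅ + ε') / (sg * r * τ₁)) * b := by
    field_simp
    ring
  rw [e] at fin
  exact fin

end quad

/-! ### numbers -/

theorem two_zpow_le {a b : ℤ} (h : a ≤ b) : (2 : ℝ) ^ a ≤ (2 : ℝ) ^ b :=
  zpow_le_zpow_right₀ one_le_two h

/-- The error terms. -/
theorem num1 {n g lam k₅ j₁ : ℕ} (hn : 512 * (k₅ + 16) ≤ n) (hg : 512 * g ≤ n)
    (hl : 512 * lam ≤ n) (h1 : n / 16 ≤ j₁) (h2 : j₁ < n / 16 + n / 64) :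
    (2 : ℝ) ^ (((k₅ + lam : ℕ) : ℤ) - (n / 16 : ℕ)) + (2 : ℝ) ^ (-(j₁ : ℤ)) / (2 : ℝ) ^ (-(g : ℤ)) +
      18 * ((2 : ℝ) ^ (-((3 * n / 8 : ℕ) : ℤ)) + ((2 : ℝ) ^ (-((3 * n / 8 : ℕ) : ℤ)) / 2 +
        3 * (2 : ℝ) ^ (((k₅ + lam : ℕ) : ℤ) - (n / 4 : ℕ)))) /
        ((2 : ℝ) ^ (-((n / 512 + 1 : ℕ) : ℤ)) * (2 : ℝ) ^ (-(g : ℤ)) *
          (2 : ℝ) ^ (-((j₁ + g : ℕ) : ℤ))) ≤ (2 : ℝ) ^ (-((n / 20 : ℕ) : ℤ) - 1) := by
  have two : (2 : ℝ) ≠ 0 := two_ne_zero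
  have e1 : (2 : ℝ) ^ (((k₅ + lam : ℕ) : ℤ) - (n / 16 : ℕ)) ≤
      (2 : ℝ) ^ (-((n / 20 : ℕ) : ℤ) - 3) := two_zpow_le (by push_cast; omega)
  have e2 : (2 : ℝ) ^ (-(j₁ : ℤ)) / (2 : ℝ) ^ (-(g : ℤ)) ≤ (2 : ℝ) ^ (-((n / 20 : ℕ) : ℤ) - 3) := by
    rw [← zpow_sub₀ two]
    exact two_zpow_le (by push_cast; omega)
  have e3 : (2 : ℝ) ^ (-((3 * n / 8 : ℕ) : ℤ)) ≤ (2 : ℝ) ^ (((k₅ + lam : ℕ) : ℤ) - (n / 4 : ℕ)) :=
    two_zpow_le (by push_cast; omega)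
  have e4 : 18 * ((2 : ℝ) ^ (-((3 * n / 8 : ℕ) : ℤ)) + ((2 : ℝ) ^ (-((3 * n / 8 : ℕ) : ℤ)) / 2 +
        3 * (2 : ℝ) ^ (((k₅ + lam : ℕ) : ℤ) - (n / 4 : ℕ)))) ≤
      (2 : ℝ) ^ (7 : ℤ) * (2 : ℝ) ^ (((k₅ + lam : ℕ) : ℤ) - (n / 4 : ℕ)) := by
    have : (2 : ℝ) ^ (7 : ℤ) = 128 := by norm_num
    rw [this]
    have h0 : (0 : ℝ) < (2 : ℝ) ^ (((k₅ + lam : ℕ) : ℤ) - (n / 4 : ℕ)) := by positivity
    linarith only [e3, h0]
  have e5 : 18 * ((2 : ℝ) ^ (-((3 * n / 8 : ℕ) : ℤ)) + ((2 : ℝ) ^ (-((3 * n / 8 : ℕ) : ℤ)) / 2 +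
        3 * (2 : ℝ) ^ (((k₅ + lam : ℕ) : ℤ) - (n / 4 : ℕ)))) /
        ((2 : ℝ) ^ (-((n / 512 + 1 : ℕ) : ℤ)) * (2 : ℝ) ^ (-(g : ℤ)) *
          (2 : ℝ) ^ (-((j₁ + g : ℕ) : ℤ))) ≤ (2 : ℝ) ^ (-((n / 20 : ℕ) : ℤ) - 2) := by
    rw [div_le_iff₀ (by positivity)]
    refine e4.trans ?_
    rw [← zpow_add₀ two, ← zpow_add₀ two, ← zpow_add₀ two, ← zpow_add₀ two]
    exact two_zpow_le (by push_cast; omega)
  have e6 : (2 : ℝ) ^ (-((n / 20 : ℕ) : ℤ) - 1) = 4 * (2 : ℝ) ^ (-((n / 20 : ℕ) : ℤ) - 3) := by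
    have : (4 : ℝ) = (2 : ℝ) ^ (2 : ℤ) := by norm_num
    rw [this, ← zpow_add₀ two]
    congr 1
    ring
  have e7 : (2 : ℝ) ^ (-((n / 20 : ℕ) : ℤ) - 2) = 2 * (2 : ℝ) ^ (-((n / 20 : ℕ) : ℤ) - 3) := by
    have h := zpow_add₀ two 1 (-((n / 20 : ℕ) : ℤ) - 3)
    rw [zpow_one] at h
    rw [← h]
    congr 1
    ring
  rw [e6]
  rw [e7] at e5
  linarith only [e1, e2, e5]

theorem num2 {n lam k₅ : ℕ} (hn : 512 * (k₅ + 16) ≤ n) (hl : 512 * lam ≤ n) :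
    3 * ((2 : ℝ) ^ (-((3 * n / 8 : ℕ) : ℤ)) + ((2 : ℝ) ^ (-((3 * n / 8 : ℕ) : ℤ)) / 2 +
        3 * (2 : ℝ) ^ (((k₅ + lam : ℕ) : ℤ) - (n / 4 : ℕ)))) /
        (2 : ℝ) ^ (-((n / 512 + 1 : ℕ) : ℤ)) ≤ (2 : ℝ) ^ (-((n / 20 : ℕ) : ℤ)) := by
  have two : (2 : ℝ) ≠ 0 := two_ne_zero
  have e3 : (2 : ℝ) ^ (-((3 * n / 8 : ℕ) : ℤ)) ≤ (2 : ℝ) ^ (((k₅ + lam : ℕ) : ℤ) - (n / 4 : ℕ)) :=
    two_zpow_le (by push_cast; omega)
  have e4 : 3 * ((2 : ℝ) ^ (-((3 * n / 8 : ℕ) : ℤ)) + ((2 : ℝ) ^ (-((3 * n / 8 : ℕ) : ℤ)) / 2 +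
        3 * (2 : ℝ) ^ (((k₅ + lam : ℕ) : ℤ) - (n / 4 : ℕ)))) ≤
      (2 : ℝ) ^ (7 : ℤ) * (2 : ℝ) ^ (((k₅ + lam : ℕ) : ℤ) - (n / 4 : ℕ)) := by
    have : (2 : ℝ) ^ (7 : ℤ) = 128 := by norm_num
    rw [this]
    have h0 : (0 : ℝ) < (2 : ℝ) ^ (((k₅ + lam : ℕ) : ℤ) - (n / 4 : ℕ)) := by positivity
    linarith only [e3, h0]
  rw [div_le_iff₀ (by positivity)]
  refine e4.trans ?_
  rw [← zpow_add₀ two, ← zpow_add₀ two]
  exact two_zpow_le (by push_cast; omega)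

section main

variable {d : Dat}

/-- **The row FIN.** -/
theorem fin_thm : FINStmt := by
  classical
  intro ε' hε'
  set ε₁ : ℝ := min 1 ε' / 32 with hε₁
  have hε₁0 : 0 < ε₁ := by
    have : 0 < min 1 ε' := lt_min one_pos hε'
    positivity
  have hε₁1 : ε₁ ≤ 1 := by
    have : min 1 ε' ≤ 1 := min_le_left _ _
    rw [hε₁]
    linarith only [this]
  have hε₁2 : 32 * ε₁ ≤ ε' := by
    have : min 1 ε' ≤ ε' := min_le_right _ _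
    rw [hε₁]
    linarith only [this]
  have hpow1 : ε₁ ^ 8 ≤ ε₁ := by
    calc ε₁ ^ 8 ≤ ε₁ ^ 1 := pow_le_pow_of_le_one hε₁0.le hε₁1 (by norm_num)
      _ = ε₁ := pow_one _
  have hpow2 : ε₁ ^ 4 ≤ ε₁ := by
    calc ε₁ ^ 4 ≤ ε₁ ^ 1 := pow_le_pow_of_le_one hε₁0.le hε₁1 (by norm_num)
      _ = ε₁ := pow_one _
  have hpow3 : ε₁ ^ 8 ≤ ε₁ ^ 4 := pow_le_pow_of_le_one hε₁0.le hε₁1 (by norm_num)
  refine ⟨ε₁ ^ 8, by positivity, fun A k₅ => ⟨512 * (k₅ + 16), ?_⟩⟩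
  intro d G m n h g lam x₀ Λ hOK hS hn hg hl hx hTA hG hΛ hB hA16 hA4 hM h7
  set ε : ℝ := ε₁ ^ 8 with hε
  have hε0 : 0 < ε := by positivity
  have hP := hOK.law.nonneg
  have hXn : 64 * n ≤ d.X := hS.nX
  set B : ℝ := (2 : ℝ) ^ (-m) with hBdef
  have hB0 : 0 < B := by positivity
  set D := toAD d Λ B with hD
  have hDok : D.OK := toAD_ok hOK hB0.le
  set k : ℕ := k₅ + lam with hk
  set η₄ : ℝ := (2 : ℝ) ^ ((k : ℤ) - (n / 4 : ℕ)) with hη₄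
  set η₁ : ℝ := (2 : ℝ) ^ ((k : ℤ) - (n / 16 : ℕ)) with hη₁
  set ε₄ : ℝ := (2 : ℝ) ^ (-((3 * n / 8 : ℕ) : ℤ)) with hε₄
  set q : ℕ := n / 20 with hq
  set sg : ℝ := (2 : ℝ) ^ (-((n / 512 + 1 : ℕ) : ℤ)) with hsg
  set r : ℝ := (2 : ℝ) ^ (-(g : ℤ)) with hr
  have two : (2 : ℝ) ≠ 0 := two_ne_zero
  have c4 : (2 : ℝ) ^ ((k : ℤ) - m - (n / 4 : ℕ)) = η₄ * B := by
    rw [hη₄, hBdef, ← zpow_add₀ two]
    congr 1
    ring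
  have c1 : (2 : ℝ) ^ ((k : ℤ) - m - (n / 16 : ℕ)) = η₁ * B := by
    rw [hη₁, hBdef, ← zpow_add₀ two]
    congr 1
    ring
  have cM : (2 : ℝ) ^ (-(m + (3 * n / 8 : ℕ))) = ε₄ * B := by
    rw [hε₄, hBdef, ← zpow_add₀ two]
    congr 1
    ring
  have nnQ : ∀ i, ∀ w, 0 ≤ d.Qp i w := fun i w => dbl_nonneg hP w
  -- bad events
  set A4 : Set (d.Om × d.Om) := {w | w.1 ∈ G ∧ (2 : ℝ) ^ ((k : ℤ) - m - (n / 4 : ℕ)) * |d.ta w| <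
      ‖fun r => d.sg w r - d.ta w * Λ w.1 r‖} with hA4'
  set A1 : Set (d.Om × d.Om) := {w | w.1 ∈ G ∧ (2 : ℝ) ^ ((k : ℤ) - m - (n / 16 : ℕ)) * |d.ta w| <
      ‖fun r => d.sg w r - d.ta w * Λ w.1 r‖} with hA1'
  set MM : Set (d.Om × d.Om) := {w | w.1 ∈ G ∧ w.2 ∈ G ∧
      (2 : ℝ) ^ (-(m + (3 * n / 8 : ℕ))) * |d.ta w| <
    |∑ r, (d.sg w r + d.ta w * Λ w.1 r) * d.e (d.T w.2) r|} with hMM
  obtain ⟨j₄, hj4, hj4', hj4e⟩ : ∃ j, n / 4 ≤ j ∧ j < n / 2 ∧ Pr (d.Qp j) A4 ≤ 5 * ε := by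
    refine exists_scale (f := fun j => Pr (d.Qp j) A4) (fun i => Pr_nn (nnQ i) _) (by omega)
      (by omega) hA4 hε0.le ?_
    have : n ≤ 5 * (n / 2 - n / 4) := by omega
    exact_mod_cast this
  obtain ⟨j₁, hj1, hj1', hj1e⟩ : ∃ j, n / 16 ≤ j ∧ j < n / 16 + n / 64 ∧
      Pr (d.Qp j) A1 ≤ 128 * ε := by
    refine exists_scale (f := fun j => Pr (d.Qp j) A1) (fun i => Pr_nn (nnQ i) _) (by omega)
      (by omega) hA16 hε0.le ?_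
    have : n ≤ 128 * (n / 16 + n / 64 - n / 16) := by omega
    exact_mod_cast this
  -- (C)
  set e' : ℝ := ε₄ / 2 + 3 * η₄ with he'
  set V : Set d.Om := {ω | ω ∈ G ∧ ¬ D.GE e' ω} with hV
  have hPV : Pr d.P V ≤ 4 * ε₁ ^ 4 := by
    have h1 : Pr d.P V ^ 2 ≤ Pr (d.Qp j₄) {w | w.1 ∈ V ∧ w.2 ∈ V} :=
      two_ge hOK.law (fun ω => (d.L ω, d.Ti j₄ ω)) V
    set T0 : Set (d.Om × d.Om) := {w | |d.ta w| < (2 : ℝ) ^ (-((j₄ + g : ℕ) : ℤ))} with hT0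
    have h2 : Pr (d.Qp j₄) {w | w.1 ∈ V ∧ w.2 ∈ V} ≤ Pr (d.Qp j₄)
        (T0 ∪ (A4 ∪ ({w | (w.2, w.1) ∈ A4} ∪ {w | (w.2, w.1) ∈ MM}))) := by
      refine Pr_le_of (nnQ _) fun w _ hw => ?_
      by_contra hcon
      simp only [Set.mem_union, not_or] at hcon
      obtain ⟨x1, x2, x3, x4⟩ := hcon
      obtain ⟨⟨v1, v1'⟩, ⟨v2, _⟩⟩ := hw
      apply v1'
      have y1 : 0 < |D.dt w| := by
        have : (2 : ℝ) ^ (-((j₄ + g : ℕ) : ℤ)) ≤ |d.ta w| := not_lt.1 x1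
        exact lt_of_lt_of_le (by positivity) this
      have y2 : ‖fun r => d.sg w r - d.ta w * Λ w.1 r‖ ≤ (η₄ * B) * |d.ta w| := by
        rw [← c4]
        exact not_lt.1 fun hh => x2 ⟨v1, hh⟩
      have y3 : ‖fun r => d.sg (w.2, w.1) r - d.ta (w.2, w.1) * Λ w.2 r‖ ≤
          (η₄ * B) * |d.ta (w.2, w.1)| := by
        rw [← c4]
        exact not_lt.1 fun hh => x3 ⟨v2, hh⟩
      have y4 : |∑ r, (d.sg (w.2, w.1) r + d.ta (w.2, w.1) * Λ w.2 r) * d.e (d.T w.1) r| ≤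
          (ε₄ * B) * |d.ta (w.2, w.1)| := by
        rw [← cM]
        exact not_lt.1 fun hh => x4 ⟨v2, v1, hh⟩
      have gc : D.GC η₄ ε₄ w := ⟨y1, nr_of y2, nr_of' y3, mt_of' y4⟩
      exact gc.ev (hDok.E _)
    have t0 : Pr (d.Qp j₄) T0 ≤ ε := hTA j₄ (j₄ + g) (by omega) (by omega)
    have t1 : Pr (d.Qp j₄) {w | (w.2, w.1) ∈ A4} ≤ 5 * ε := by
      have : Pr (d.Qp j₄) {w | (w.2, w.1) ∈ A4} = Pr (d.Qp j₄) A4 := Pr_swap _ _ _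
      rw [this]
      exact hj4e
    have t2 : Pr (d.Qp j₄) {w | (w.2, w.1) ∈ MM} ≤ ε := by
      have : Pr (d.Qp j₄) {w | (w.2, w.1) ∈ MM} = Pr (d.Qp j₄) MM := Pr_swap _ _ _
      rw [this]
      exact hM j₄ (by omega)
    have u1 := Pr_or (nnQ j₄) T0 (A4 ∪ ({w | (w.2, w.1) ∈ A4} ∪ {w | (w.2, w.1) ∈ MM}))
    have u2 := Pr_or (nnQ j₄) A4 ({w | (w.2, w.1) ∈ A4} ∪ {w | (w.2, w.1) ∈ MM})
    have u3 := Pr_or (nnQ j₄) {w | (w.2, w.1) ∈ A4} {w | (w.2, w.1) ∈ MM}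
    have h3 : Pr d.P V ^ 2 ≤ 12 * ε := by linarith only [hj4e, h1, h2, t0, t1, t2, u1, u2, u3]
    have h4 : Pr d.P V ^ 2 ≤ (4 * ε₁ ^ 4) ^ 2 := by
      refine h3.trans ?_
      rw [hε]
      nlinarith only [hε0, pow_pos hε₁0 8]
    exact (pow_le_pow_iff_left₀ (Pr_nn hP V) (by positivity) two_ne_zero).1 h4
  -- (D)
  set Gc : Set (d.Om × d.Om) := {w | w.1 ∈ G ∧ w.2 ∈ G ∧
    ¬ (D.GM ε₄ sg r w ∧ D.GE e' w.1 ∧ D.GE e' w.2)} with hGc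
  have hsgx : sg ≤ (2 : ℝ) ^ (-(x₀ * d.X)) := by
    rw [hsg, ← Real.rpow_intCast]
    refine Real.rpow_le_rpow_of_exponent_le one_le_two ?_
    rw [Int.cast_neg, Int.cast_natCast, Nat.cast_add, Nat.cast_one]
    have h1 : x₀ * d.X ≤ n / 512 := by
      rw [le_div_iff₀ (by norm_num)]
      linarith only [hx]
    have h2 : (n : ℝ) / 512 ≤ ((n / 512 : ℕ) : ℝ) + 1 := by
      have : n ≤ 512 * (n / 512) + 512 := by omega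
      have h3 : (n : ℝ) ≤ 512 * ((n / 512 : ℕ) : ℝ) + 512 := by exact_mod_cast this
      linarith only [h3]
    linarith only [hx, h2]
  have nnD : ∀ w, 0 ≤ dbl d.P d.L w := fun w => dbl_nonneg hP w
  have hPG : Pr (dbl d.P d.L) Gc ≤ 6 * ε + 2 * Pr d.P V := by
    set T0 : Set (d.Om × d.Om) := {w | |d.ta w| < (2 : ℝ) ^ (-(g : ℤ))} with hT0
    set T1 : Set (d.Om × d.Om) := {w | |d.E (d.T w.1) - d.E (d.T w.2)| <
      (2 : ℝ) ^ (-(x₀ * d.X))} with hT1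
    set T2 : Set d.Om := {ω | ω ∈ G ∧ (2 : ℝ) ^ (-m) < ‖Λ ω‖} with hT2
    have h2 : Pr (dbl d.P d.L) Gc ≤ Pr (dbl d.P d.L)
        (T0 ∪ (T1 ∪ ({w | w.1 ∈ T2} ∪ ({w | w.2 ∈ T2} ∪ (MM ∪ ({w | (w.2, w.1) ∈ MM} ∪
          ({w | w.1 ∈ V} ∪ {w | w.2 ∈ V}))))))) := by
      refine Pr_le_of nnD fun w _ hw => ?_
      by_contra hcon
      simp only [Set.mem_union, not_or] at hcon
      obtain ⟨x1, x2, x3, x4, x5, x6, x7, x8⟩ := hcon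
      obtain ⟨w1, w2, hw3⟩ := hw
      apply hw3
      have tw : |D.dt w| ≤ 1 := hDok.dt_le w
      have y1 : r ≤ |D.dt w| := not_lt.1 x1
      have y2 : sg ≤ |D.E w.1 - D.E w.2| := hsgx.trans (not_lt.1 x2)
      have y3 : ∀ a, |D.La w.1 a| ≤ B := by
        intro a
        have h1 : ‖Λ w.1‖ ≤ B := not_lt.1 fun hh => x3 ⟨w1, hh⟩
        exact (norm_le_pi_norm (Λ w.1) a).trans h1
      have y4 : ∀ a, |D.La w.2 a| ≤ B := by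
        intro a
        have h1 : ‖Λ w.2‖ ≤ B := not_lt.1 fun hh => x4 ⟨w2, hh⟩
        exact (norm_le_pi_norm (Λ w.2) a).trans h1
      have y5 : |∑ r, (d.sg w r + d.ta w * Λ w.1 r) * d.e (d.T w.2) r| ≤
          (ε₄ * B) * |d.ta w| := by
        rw [← cM]
        exact not_lt.1 fun hh => x5 ⟨w1, w2, hh⟩
      have y6 : |∑ r, (d.sg (w.2, w.1) r + d.ta (w.2, w.1) * Λ w.2 r) * d.e (d.T w.1) r| ≤
          (ε₄ * B) * |d.ta (w.2, w.1)| := by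
        rw [← cM]
        exact not_lt.1 fun hh => x6 ⟨w2, w1, hh⟩
      have z5 : |D.ev (D.mt w w.1) w.2| ≤ (ε₄ * B) * |D.dt w| := mt_of y5
      have z6 : |D.ev (D.mt w w.2) w.1| ≤ (ε₄ * B) * |D.dt w| := mt_of' y6
      have z0 : (ε₄ * B) * |D.dt w| ≤ ε₄ * B := by
        have : 0 ≤ ε₄ * B := by positivity
        calc (ε₄ * B) * |D.dt w| ≤ (ε₄ * B) * 1 := mul_le_mul_of_nonneg_left tw this
          _ = _ := mul_one _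
      refine ⟨⟨y1, y2, y3, y4, z5.trans z0, z6.trans z0⟩, ?_, ?_⟩
      · by_contra hc
        exact x7 ⟨w1, hc⟩
      · by_contra hc
        exact x8 ⟨w2, hc⟩
    have t0 : Pr (dbl d.P d.L) T0 ≤ ε := by
      have := hTA 0 g (by omega) (by omega)
      rw [Qp0 hOK] at this
      exact this
    have t1 : Pr (dbl d.P d.L) T1 ≤ ε := h7
    have t2 : Pr (dbl d.P d.L) {w | w.1 ∈ T2} ≤ ε := by
      have : Pr (dbl d.P d.L) {w | w.1 ∈ T2} = Pr d.P T2 := Pr_pull (dbl_fst hP) T2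
      rw [this]
      exact hB
    have t3 : Pr (dbl d.P d.L) {w | w.2 ∈ T2} ≤ ε := by
      have : Pr (dbl d.P d.L) {w | w.2 ∈ T2} = Pr d.P T2 := Pr_pull (dbl_snd hP) T2
      rw [this]
      exact hB
    have t4 : Pr (dbl d.P d.L) MM ≤ ε := by
      have := hM 0 (by omega)
      unfold MAT at this
      rw [Qp0 hOK] at this
      exact this
    have t5 : Pr (dbl d.P d.L) {w | (w.2, w.1) ∈ MM} ≤ ε := by
      have : Pr (dbl d.P d.L) {w | (w.2, w.1) ∈ MM} = Pr (dbl d.P d.L) MM := Pr_swap _ _ _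
      rw [this]
      exact t4
    have t6 : Pr (dbl d.P d.L) {w | w.1 ∈ V} = Pr d.P V := Pr_pull (dbl_fst hP) V
    have t7 : Pr (dbl d.P d.L) {w | w.2 ∈ V} = Pr d.P V := Pr_pull (dbl_snd hP) V
    have u1 := Pr_or nnD T0 (T1 ∪ ({w | w.1 ∈ T2} ∪ ({w | w.2 ∈ T2} ∪ (MM ∪
      ({w | (w.2, w.1) ∈ MM} ∪ ({w | w.1 ∈ V} ∪ {w | w.2 ∈ V}))))))
    have u2 := Pr_or nnD T1 ({w | w.1 ∈ T2} ∪ ({w | w.2 ∈ T2} ∪ (MM ∪
      ({w | (w.2, w.1) ∈ MM} ∪ ({w | w.1 ∈ V} ∪ {w | w.2 ∈ V})))))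
    have u3 := Pr_or nnD {w | w.1 ∈ T2} ({w | w.2 ∈ T2} ∪ (MM ∪
      ({w | (w.2, w.1) ∈ MM} ∪ ({w | w.1 ∈ V} ∪ {w | w.2 ∈ V}))))
    have u4 := Pr_or nnD {w | w.2 ∈ T2} (MM ∪
      ({w | (w.2, w.1) ∈ MM} ∪ ({w | w.1 ∈ V} ∪ {w | w.2 ∈ V})))
    have u5 := Pr_or nnD MM ({w | (w.2, w.1) ∈ MM} ∪ ({w | w.1 ∈ V} ∪ {w | w.2 ∈ V}))
    have u6 := Pr_or nnD {w | (w.2, w.1) ∈ MM} ({w | w.1 ∈ V} ∪ {w | w.2 ∈ V})
    have u7 := Pr_or nnD {w | w.1 ∈ V} {w | w.2 ∈ V}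
    linarith only [h2, t0, t1, t2, t3, t4, t5, t6, t7, u1, u2, u3, u4, u5, u6, u7]
  -- four samples
  set U : Set d.Om := {ω | ω ∈ G ∧ (2 : ℝ) ^ (-(m + (q : ℤ)) - 1) < ‖Λ ω‖} with hU
  set Nb : Set (d.Om × d.Om) := {w | w.1 ∈ G ∧ ¬ D.GN η₁ ((2 : ℝ) ^ (-((j₁ + g : ℕ) : ℤ)))
    ((2 : ℝ) ^ (-(j₁ : ℤ))) w} with hNb
  have hPN : Pr (d.Qp j₁) Nb ≤ 129 * ε := by
    set T0 : Set (d.Om × d.Om) := {w | |d.ta w| < (2 : ℝ) ^ (-((j₁ + g : ℕ) : ℤ))} with hT0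
    have h2 : Pr (d.Qp j₁) Nb ≤ Pr (d.Qp j₁) (T0 ∪ A1) := by
      refine Pr_le_of (nnQ _) fun w hw0 hw => ?_
      by_contra hcon
      simp only [Set.mem_union, not_or] at hcon
      obtain ⟨x1, x2⟩ := hcon
      obtain ⟨w1, hw2⟩ := hw
      apply hw2
      have y2 : ‖fun r => d.sg w r - d.ta w * Λ w.1 r‖ ≤ (η₁ * B) * |d.ta w| := by
        rw [← c1]
        exact not_lt.1 fun hh => x2 ⟨w1, hh⟩
      exact ⟨not_lt.1 x1, ta_le_of hOK hw0, nr_of y2⟩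
    have t0 : Pr (d.Qp j₁) T0 ≤ ε := hTA j₁ (j₁ + g) (by omega) (by omega)
    have u1 := Pr_or (nnQ j₁) T0 A1
    linarith only [hj1e, h2, t0, u1]
  have hnum := num1 (n := n) (g := g) (lam := lam) (k₅ := k₅) (j₁ := j₁) hn hg hl hj1 hj1'
  have hPU : Pr d.P U ≤ 4 * ε₁ := by
    set R := glue (d.Qp j₁) (dbl d.P d.L) (fun w => d.L w.1) (fun w => d.L w.1) with hR
    have h1 : Pr d.P U ^ 4 ≤ Pr R {u | (u.1.1 ∈ U ∧ u.1.2 ∈ U) ∧ (u.2.1 ∈ U ∧ u.2.2 ∈ U)} :=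
      four_ge hOK.law (fun ω => (d.L ω, d.Ti j₁ ω)) d.L (fun w v hh => (Prod.ext_iff.1 hh).1) U
    have hlaw : ∀ z, Pool.Agent.H49.Ent.law (d.Qp j₁) (fun w => d.L w.1) z =
        Pool.Agent.H49.Ent.law (dbl d.P d.L) (fun w => d.L w.1) z := by
      intro z
      rw [dbl_law hP z]
      exact (dbl_fst hP).law d.L z
    have hR0 : ∀ u, 0 ≤ R u := fun u => glue_nonneg (nnQ j₁) nnD u
    have mA : Marg R (d.Qp j₁) (fun u => u.1) := marg_fst (nnQ j₁) hlaw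
    have mB : Marg R (dbl d.P d.L) (fun u => u.2) := marg_snd nnD hlaw
    have lin : ∀ w, 0 < d.Qp j₁ w → d.L w.1 = d.L w.2 := fun w hw => line_eq hOK hw
    have mf : Marg (d.Qp j₁) d.P Prod.fst := dbl_fst hP
    have ms : Marg (d.Qp j₁) d.P Prod.snd := dbl_snd hP
    have x1 := cross hP d.L (nnQ j₁) lin (p₁ := Prod.fst) (p₂ := Prod.fst) (Or.inl rfl)
      (Or.inl rfl) mf
    have x2 := cross hP d.L (nnQ j₁) lin (p₁ := Prod.fst) (p₂ := Prod.snd) (Or.inl rfl)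
      (Or.inr rfl) mf
    have x3 := cross hP d.L (nnQ j₁) lin (p₁ := Prod.snd) (p₂ := Prod.fst) (Or.inr rfl)
      (Or.inl rfl) ms
    have x4 := cross hP d.L (nnQ j₁) lin (p₁ := Prod.snd) (p₂ := Prod.snd) (Or.inr rfl)
      (Or.inr rfl) ms
    set B0 : Set ((d.Om × d.Om) × (d.Om × d.Om)) := {u | u.1 ∈ Nb} with hB0s
    set B1 : Set ((d.Om × d.Om) × (d.Om × d.Om)) := {u | (u.1.1, u.2.1) ∈ Gc} with hB1
    set B2 : Set ((d.Om × d.Om) × (d.Om × d.Om)) := {u | (u.1.1, u.2.2) ∈ Gc} with hB2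
    set B3 : Set ((d.Om × d.Om) × (d.Om × d.Om)) := {u | (u.1.2, u.2.1) ∈ Gc} with hB3
    set B4 : Set ((d.Om × d.Om) × (d.Om × d.Om)) := {u | (u.1.2, u.2.2) ∈ Gc} with hB4
    set B5 : Set ((d.Om × d.Om) × (d.Om × d.Om)) := {u | u.2 ∈ Gc} with hB5
    have p0 : Pr R B0 = Pr (d.Qp j₁) Nb := Pr_pull mA _
    have p1 : Pr R B1 = Pr (dbl d.P d.L) Gc := Pr_pull x1 _
    have p2 : Pr R B2 = Pr (dbl d.P d.L) Gc := Pr_pull x2 _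
    have p3 : Pr R B3 = Pr (dbl d.P d.L) Gc := Pr_pull x3 _
    have p4 : Pr R B4 = Pr (dbl d.P d.L) Gc := Pr_pull x4 _
    have p5 : Pr R B5 = Pr (dbl d.P d.L) Gc := Pr_pull mB _
    have incl : Pr R {u | (u.1.1 ∈ U ∧ u.1.2 ∈ U) ∧ (u.2.1 ∈ U ∧ u.2.2 ∈ U)} ≤
        Pr R (B0 ∪ (B1 ∪ (B2 ∪ (B3 ∪ (B4 ∪ B5))))) := by
      refine Pr_le_of hR0 fun u hu hw => ?_
      by_contra hcon
      simp only [Set.mem_union, not_or] at hcon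
      obtain ⟨c0, c1', c2, c3, c4', c5⟩ := hcon
      obtain ⟨⟨⟨q1, q1'⟩, ⟨q2, _⟩⟩, ⟨⟨q3, _⟩, ⟨q4, _⟩⟩⟩ := hw
      have gN : D.GN η₁ ((2 : ℝ) ^ (-((j₁ + g : ℕ) : ℤ))) ((2 : ℝ) ^ (-(j₁ : ℤ))) u.1 := by
        by_contra hh
        exact c0 ⟨q1, hh⟩
      have g1 : D.GM ε₄ sg r (u.1.1, u.2.1) ∧ D.GE e' u.1.1 ∧ D.GE e' u.2.1 := by
        by_contra hh
        exact c1' ⟨q1, q3, hh⟩
      have g2 : D.GM ε₄ sg r (u.1.1, u.2.2) ∧ D.GE e' u.1.1 ∧ D.GE e' u.2.2 := by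
        by_contra hh
        exact c2 ⟨q1, q4, hh⟩
      have g3 : D.GM ε₄ sg r (u.1.2, u.2.1) ∧ D.GE e' u.1.2 ∧ D.GE e' u.2.1 := by
        by_contra hh
        exact c3 ⟨q2, q3, hh⟩
      have g4 : D.GM ε₄ sg r (u.1.2, u.2.2) ∧ D.GE e' u.1.2 ∧ D.GE e' u.2.2 := by
        by_contra hh
        exact c4' ⟨q2, q4, hh⟩
      have g5 : D.GM ε₄ sg r u.2 ∧ D.GE e' u.2.1 ∧ D.GE e' u.2.2 := by
        by_contra hh
        exact c5 ⟨q3, q4, hh⟩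
      obtain ⟨hu1, hu2, hu3⟩ := (glue_pos_iff (nnQ j₁) nnD u).1 hu
      have l1 : D.L u.1.1 = D.L u.1.2 := lin _ hu1
      have l2 : D.L u.2.1 = D.L u.2.2 := dbl_eq hP hu2
      have l3 : D.L u.1.1 = D.L u.2.1 := hu3
      have hquad := fun a => quad hDok (u := u) (ηn := η₁)
        (τ₁ := (2 : ℝ) ^ (-((j₁ + g : ℕ) : ℤ))) (τ₂ := (2 : ℝ) ^ (-(j₁ : ℤ))) (ε₅ := ε₄)
        (ε' := e') (sg := sg) (r := r) (b := B) (by positivity) (by positivity) (by positivity)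
        (by positivity) (by positivity) (by
          rw [hsg, ← zpow_zero (2 : ℝ)]
          exact two_zpow_le (by omega)) (by positivity) (fun _ => rfl) l1 l2 l3 gN g1 g2 g3 g4 g5 a
      have hfin : ‖Λ u.1.1‖ ≤ (2 : ℝ) ^ (-(m + (q : ℤ)) - 1) := by
        rw [pi_norm_le_iff_of_nonneg (by positivity)]
        intro a
        refine (hquad a).trans ?_
        have e1 : (2 : ℝ) ^ (-(m + (q : ℤ)) - 1) = (2 : ℝ) ^ (-(q : ℤ) - 1) * B := by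
          rw [hBdef, ← zpow_add₀ two]
          congr 1
          ring
        rw [e1]
        exact mul_le_mul_of_nonneg_right hnum hB0.le
      exact absurd q1' (not_lt.2 hfin)
    have u1 := Pr_or hR0 B0 (B1 ∪ (B2 ∪ (B3 ∪ (B4 ∪ B5))))
    have u2 := Pr_or hR0 B1 (B2 ∪ (B3 ∪ (B4 ∪ B5)))
    have u3 := Pr_or hR0 B2 (B3 ∪ (B4 ∪ B5))
    have u4 := Pr_or hR0 B3 (B4 ∪ B5)
    have u5 := Pr_or hR0 B4 B5
    have h2 : Pr d.P U ^ 4 ≤ 159 * ε + 10 * Pr d.P V := by linarith only [hPG, hPN, h1, p0, p1, p2, p3, p4, p5, incl, u1, u2, u3, u4, u5]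
    have h3 : Pr d.P U ^ 4 ≤ (4 * ε₁) ^ 4 := by
      refine h2.trans ?_
      have e1 : (4 * ε₁) ^ 4 = 256 * ε₁ ^ 4 := by ring
      rw [e1]
      linarith only [hpow3, hε0, hPV]
    exact (pow_le_pow_iff_left₀ (Pr_nn hP U) (by positivity) (by norm_num)).1 h3
  -- the bound at the next level
  have hq1 : (2 : ℝ) ^ (-(m + (q : ℤ)) - 1) + (2 : ℝ) ^ (-(m + (q : ℤ)) - 1) =
      (2 : ℝ) ^ (-(m + (q : ℤ))) := by
    have e := zpow_add₀ two 1 (-(m + (q : ℤ)) - 1)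
    rw [zpow_one] at e
    rw [← two_mul, ← e]
    congr 1
    ring
  have hq2 : (2 : ℝ) ^ (-(m + (q : ℤ))) + (2 : ℝ) ^ (-(m + (q : ℤ))) =
      (2 : ℝ) ^ (-(m + (q : ℤ)) + 1) := by
    have e := zpow_add₀ two 1 (-(m + (q : ℤ)))
    rw [zpow_one] at e
    rw [← two_mul, ← e]
    congr 1
    ring
  have hPU0 : 0 ≤ Pr d.P U := Pr_nn hP U
  have hPV0 : 0 ≤ Pr d.P V := Pr_nn hP V
  constructor
  · have h16 : (2 : ℝ) ^ ((k : ℤ) - m - (n / 16 : ℕ)) ≤ (2 : ℝ) ^ (-(m + (q : ℤ)) - 1) :=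
      two_zpow_le (by omega)
    have hi : ∀ i ∈ Finset.Ico (n / 16) (2 * n), Pr (d.Qp i)
        {w | w.1 ∈ G ∧ (2 : ℝ) ^ (-(m + (q : ℤ))) * |d.ta w| < ‖d.sg w‖} ≤
        Pr (d.Qp i) A1 + Pr d.P U := by
      intro i _
      have h2 : Pr (d.Qp i)
          {w | w.1 ∈ G ∧ (2 : ℝ) ^ (-(m + (q : ℤ))) * |d.ta w| < ‖d.sg w‖} ≤
          Pr (d.Qp i) (A1 ∪ {w | w.1 ∈ U}) := by
        refine Pr_le_of (nnQ _) fun w _ hw => ?_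
        by_contra hcon
        simp only [Set.mem_union, not_or] at hcon
        obtain ⟨x1, x2⟩ := hcon
        obtain ⟨w1, hw2⟩ := hw
        have y1 : ‖fun r => d.sg w r - d.ta w * Λ w.1 r‖ ≤
            (2 : ℝ) ^ ((k : ℤ) - m - (n / 16 : ℕ)) * |d.ta w| := not_lt.1 fun hh => x1 ⟨w1, hh⟩
        have y2 : ‖Λ w.1‖ ≤ (2 : ℝ) ^ (-(m + (q : ℤ)) - 1) := not_lt.1 fun hh => x2 ⟨w1, hh⟩
        have y3 : ‖d.sg w‖ ≤ (2 : ℝ) ^ (-(m + (q : ℤ))) * |d.ta w| := by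
          rw [pi_norm_le_iff_of_nonneg (by positivity)]
          intro a
          have z1 := (norm_le_pi_norm (fun r => d.sg w r - d.ta w * Λ w.1 r) a).trans y1
          have z2 := (norm_le_pi_norm (Λ w.1) a).trans y2
          have z3 : ‖d.sg w a‖ ≤ ‖d.sg w a - d.ta w * Λ w.1 a‖ + |d.ta w| * ‖Λ w.1 a‖ := by
            have := norm_add_le (d.sg w a - d.ta w * Λ w.1 a) (d.ta w * Λ w.1 a)
            rw [sub_add_cancel, norm_mul, Real.norm_eq_abs (d.ta w)] at this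
            exact this
          have z4 : |d.ta w| * ‖Λ w.1 a‖ ≤ |d.ta w| * (2 : ℝ) ^ (-(m + (q : ℤ)) - 1) :=
            mul_le_mul_of_nonneg_left z2 (abs_nonneg _)
          have z5 : (2 : ℝ) ^ ((k : ℤ) - m - (n / 16 : ℕ)) * |d.ta w| ≤
              (2 : ℝ) ^ (-(m + (q : ℤ)) - 1) * |d.ta w| :=
            mul_le_mul_of_nonneg_right h16 (abs_nonneg _)
          rw [← hq1]
          calc ‖d.sg w a‖ ≤ _ := z3
            _ ≤ (2 : ℝ) ^ ((k : ℤ) - m - (n / 16 : ℕ)) * |d.ta w| +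
                |d.ta w| * (2 : ℝ) ^ (-(m + (q : ℤ)) - 1) := add_le_add z1 z4
            _ ≤ (2 : ℝ) ^ (-(m + (q : ℤ)) - 1) * |d.ta w| +
                |d.ta w| * (2 : ℝ) ^ (-(m + (q : ℤ)) - 1) := by linarith only [z5]
            _ = _ := by ring
        exact absurd hw2 (not_lt.2 y3)
      have u1 := Pr_or (nnQ i) A1 {w | w.1 ∈ U}
      have t0 : Pr (d.Qp i) {w | w.1 ∈ U} = Pr d.P U := Pr_pull (dbl_fst hP) U
      linarith only [h2, u1, t0]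
    show ∑ i ∈ Finset.Ico (n / 16) (2 * n), Pr (d.Qp i)
      {w | w.1 ∈ G ∧ (2 : ℝ) ^ (-(m + (q : ℤ))) * |d.ta w| < ‖d.sg w‖} ≤ ε' * n
    refine (Finset.sum_le_sum hi).trans ?_
    rw [Finset.sum_add_distrib, Finset.sum_const, Nat.card_Ico, nsmul_eq_mul]
    have s1 : ∑ i ∈ Finset.Ico (n / 16) (2 * n), Pr (d.Qp i) A1 ≤ ε * n := hA16
    have s2 : ((2 * n - n / 16 : ℕ) : ℝ) ≤ 2 * n := by
      have : 2 * n - n / 16 ≤ 2 * n := Nat.sub_le _ _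
      exact_mod_cast this
    have s3 : ((2 * n - n / 16 : ℕ) : ℝ) * Pr d.P U ≤ 2 * n * Pr d.P U :=
      mul_le_mul_of_nonneg_right s2 hPU0
    have n0 : (0 : ℝ) ≤ n := Nat.cast_nonneg _
    have s4 : ε * n ≤ ε₁ * n := mul_le_mul_of_nonneg_right hpow1 n0
    have s5 : 2 * n * Pr d.P U ≤ 2 * n * (4 * ε₁) :=
      mul_le_mul_of_nonneg_left hPU (by positivity)
    have s6 : 32 * ε₁ * n ≤ ε' * n := mul_le_mul_of_nonneg_right hε₁2 n0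
    have s7 : 0 ≤ ε₁ * n := by positivity
    nlinarith only [s1, s3, s4, s5, s6, s7]
  · have hn2 := num2 (n := n) (lam := lam) (k₅ := k₅) hn hl
    have h2 : Pr (dbl d.P d.L) {w | w.1 ∈ G ∧ w.2 ∈ G ∧
        (2 : ℝ) ^ (-(m + (q : ℤ)) + 1) < ‖d.S (d.T w.1) - d.S (d.T w.2)‖} ≤
        Pr (dbl d.P d.L) (Gc ∪ ({w | w.1 ∈ U} ∪ {w | w.2 ∈ U})) := by
      refine Pr_le_of nnD fun w hw0 hw => ?_
      by_contra hcon
      simp only [Set.mem_union, not_or] at hcon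
      obtain ⟨x1, x2, x3⟩ := hcon
      obtain ⟨w1, w2, hw3⟩ := hw
      have gm : D.GM ε₄ sg r w ∧ D.GE e' w.1 ∧ D.GE e' w.2 := by
        by_contra hh
        exact x1 ⟨w1, w2, hh⟩
      have y1 : ‖Λ w.1‖ ≤ (2 : ℝ) ^ (-(m + (q : ℤ)) - 1) := not_lt.1 fun hh => x2 ⟨w1, hh⟩
      have y2 : ‖Λ w.2‖ ≤ (2 : ℝ) ^ (-(m + (q : ℤ)) - 1) := not_lt.1 fun hh => x3 ⟨w2, hh⟩
      have hL : D.L w.1 = D.L w.2 := dbl_eq hP hw0
      have hsg0 : 0 < sg := by positivity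
      have hsg1 : sg ≤ 1 := by
        rw [hsg, ← zpow_zero (2 : ℝ)]
        exact two_zpow_le (by omega)
      have tw : |D.dt w| ≤ 1 := hDok.dt_le w
      have y3 : ‖d.S (d.T w.1) - d.S (d.T w.2)‖ ≤ (2 : ℝ) ^ (-(m + (q : ℤ)) + 1) := by
        rw [pi_norm_le_iff_of_nonneg (by positivity)]
        intro a
        have z0 := gm.1.Dv_le hDok hsg0 hsg1 hL gm.2.1 gm.2.2 a
        have z1 : |D.Dv w a| ≤ (2 : ℝ) ^ (-(m + (q : ℤ))) := by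
          refine z0.trans ?_
          show 3 * (ε₄ + e') * B / sg ≤ _
          have e1 : 3 * (ε₄ + e') * B / sg = 3 * (ε₄ + e') / sg * B := by ring
          have e2 : (2 : ℝ) ^ (-(m + (q : ℤ))) = (2 : ℝ) ^ (-(q : ℤ)) * B := by
            rw [hBdef, ← zpow_add₀ two]
            congr 1
            ring
          rw [e1, e2]
          exact mul_le_mul_of_nonneg_right hn2 hB0.le
        have z2 := (norm_le_pi_norm (Λ w.1) a).trans y1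
        have z3 := (norm_le_pi_norm (Λ w.2) a).trans y2
        rw [Real.norm_eq_abs] at z2 z3
        have z4 : |D.dt w * (Λ w.1 a + Λ w.2 a)| ≤ (2 : ℝ) ^ (-(m + (q : ℤ))) := by
          rw [abs_mul, ← hq1]
          calc |D.dt w| * |Λ w.1 a + Λ w.2 a| ≤ 1 * |Λ w.1 a + Λ w.2 a| :=
                mul_le_mul_of_nonneg_right tw (abs_nonneg _)
            _ ≤ |Λ w.1 a| + |Λ w.2 a| := by
                rw [one_mul]
                exact abs_add_le _ _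
            _ ≤ _ := add_le_add z2 z3
        have z5 : ‖(d.S (d.T w.1) - d.S (d.T w.2)) a‖ =
            |D.Dv w a - D.dt w * (Λ w.1 a + Λ w.2 a)| := by
          rw [Real.norm_eq_abs, ← abs_neg]
          congr 1
          show -(d.S (d.T w.1) a - d.S (d.T w.2) a) =
            (d.S (d.T w.2) a - d.S (d.T w.1) a + D.dt w * (Λ w.1 a + Λ w.2 a)) -
              D.dt w * (Λ w.1 a + Λ w.2 a)
          ring
        rw [z5, ← hq2]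
        have := abs_sub (D.Dv w a) (D.dt w * (Λ w.1 a + Λ w.2 a))
        linarith only [z1, z4, this]
      exact absurd hw3 (not_lt.2 y3)
    have u1 := Pr_or nnD Gc ({w | w.1 ∈ U} ∪ {w | w.2 ∈ U})
    have u2 := Pr_or nnD {w | w.1 ∈ U} {w | w.2 ∈ U}
    have t0 : Pr (dbl d.P d.L) {w | w.1 ∈ U} = Pr d.P U := Pr_pull (dbl_fst hP) U
    have t1 : Pr (dbl d.P d.L) {w | w.2 ∈ U} = Pr d.P U := Pr_pull (dbl_snd hP) U
    show Pr (dbl d.P d.L) {w | w.1 ∈ G ∧ w.2 ∈ G ∧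
        (2 : ℝ) ^ (-(m + (q : ℤ)) + 1) < ‖d.S (d.T w.1) - d.S (d.T w.2)‖} ≤ ε'
    linarith only [hε₁0, hε₁2, hpow2, hpow1, hPV, hPG, hPU, h2, u1, u2, t0, t1]

end main

end Pool.OCS
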