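import Pool.Agent.H63.OCS.Alg

/-!
# THEOREM OCS: tuples of samples in a set of positive probability
-/

set_option autoImplicit false

namespace Pool.OCSA

open Finset Real
open Pool.Agent.H49.Ent Pool.Agent.H32.Dense Pool.STK Pool.KAF

section jen

variable {W S S' : Type} [Fintype W]

open Classical in
/-- The indicator of an event. -/
noncomputable def ind (E : Set W) (w : W) : ℝ := if w ∈ E then 1 else 0

omit [Fintype W] in
theorem ind_nonneg (E : Set W) (w : W) : 0 ≤ ind E w := by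
  unfold ind
  split_ifs <;> norm_num

/-- The conditional probability of the event. -/
noncomputable def cpr (q : W → ℝ) (Z : W → S) (E : Set W) (w : W) : ℝ :=
  Pr (Pool.Agent.H49.Ent.cond q Z (Z w)) E

theorem Pr_ind (q : W → ℝ) (E : Set W) : Pr q E = ∑ w, q w * ind E w := by
  classical
  rw [Pr_eq_sum]
  refine Finset.sum_congr rfl fun w _ => ?_
  unfold ind
  by_cases h : w ∈ E <;> simp [h]

theorem cpr_nonneg {q : W → ℝ} (hq : ∀ w, 0 ≤ q w) (Z : W → S) (E : Set W) (w : W) :
    0 ≤ cpr q Z E w := by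
  unfold cpr
  rw [Pr_ind]
  refine Finset.sum_nonneg fun v _ => mul_nonneg ?_ (ind_nonneg E v)
  exact cond_nonneg hq _ _ _

/-- Conditioning on the label. -/
theorem sum_cpr {q : W → ℝ} (hq : ∀ w, 0 ≤ q w) (Z : W → S) (E : Set W) (ψ : W → ℝ)
    (hψ : ∀ w v, Z w = Z v → ψ w = ψ v) :
    ∑ w, q w * (ψ w * cpr q Z E w) = ∑ w, q w * (ψ w * ind E w) := by
  classical
  have h1 : ∀ w, q w * (ψ w * cpr q Z E w) =
      ∑ v, if Z v = Z w then q w * (q v * (ψ v * ind E v)) / law q Z (Z v) else 0 := by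
    intro w
    unfold cpr
    rw [Pr_ind, Finset.mul_sum, Finset.mul_sum]
    refine Finset.sum_congr rfl fun v _ => ?_
    unfold Pool.Agent.H49.Ent.cond
    by_cases h : Z v = Z w
    · rw [if_pos h, if_pos h, hψ v w h, h]
      ring
    · rw [if_neg h, if_neg h]
      ring
  rw [Finset.sum_congr rfl fun w _ => h1 w, Finset.sum_comm]
  refine Finset.sum_congr rfl fun v _ => ?_
  have h2 : ∀ w, (if Z v = Z w then q w * (q v * (ψ v * ind E v)) / law q Z (Z v) else 0) =
      (if Z w = Z v then q w else 0) * ((q v * (ψ v * ind E v)) / law q Z (Z v)) := by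
    intro w
    by_cases h : Z v = Z w
    · rw [if_pos h, if_pos h.symm]
      ring
    · rw [if_neg h, if_neg (Ne.symm h)]
      ring
  rw [Finset.sum_congr rfl fun w _ => h2 w, ← Finset.sum_mul]
  have h3 : ∑ w, (if Z w = Z v then q w else 0) = law q Z (Z v) := rfl
  rw [h3]
  rcases (hq v).eq_or_lt with h0 | h0
  · rw [← h0]; simp
  · have : 0 < law q Z (Z v) := law_pos hq Z h0
    field_simp

/-- The square of a mean. -/
theorem sq_mean {q : W → ℝ} (hq : IsLaw q) (f : W → ℝ) :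
    (∑ w, q w * f w) ^ 2 ≤ ∑ w, q w * f w ^ 2 := by
  have e : ∀ c : ℝ, ∑ w, q w * (f w - c) ^ 2 = ∑ w, q w * f w ^ 2 - 2 * c * ∑ w, q w * f w +
      c ^ 2 * ∑ w, q w := by
    intro c
    rw [Finset.mul_sum, Finset.mul_sum, ← Finset.sum_sub_distrib, ← Finset.sum_add_distrib]
    exact Finset.sum_congr rfl fun w _ => by ring
  have h : 0 ≤ ∑ w, q w * (f w - ∑ v, q v * f v) ^ 2 :=
    Finset.sum_nonneg fun w _ => mul_nonneg (hq.nonneg w) (sq_nonneg _)
  rw [e, hq.sum_one] at h
  nlinarith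

/-- The law of pairs as a law of the second sample given the first. -/
theorem dbl_cond (q : W → ℝ) (Z : W → S) (w v : W) :
    dbl q Z (w, v) = q w * Pool.Agent.H49.Ent.cond q Z (Z w) v := by
  classical
  unfold dbl glue Pool.Agent.H49.Ent.cond
  by_cases h : Z w = Z v
  · rw [if_pos h, if_pos h.symm]
    ring
  · rw [if_neg h, if_neg (Ne.symm h), mul_zero]

theorem sum_dbl_U (q : W → ℝ) (Z : W → S) (U : Set W) (φ : W → ℝ) :
    ∑ x : W × W, dbl q Z x * (ind U x.1 * ind U x.2 * φ x.1) =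
      ∑ w, q w * ((ind U w * φ w) * cpr q Z U w) := by
  rw [Fintype.sum_prod_type]
  refine Finset.sum_congr rfl fun w _ => ?_
  unfold cpr
  rw [Pr_ind, Finset.mul_sum, Finset.mul_sum]
  refine Finset.sum_congr rfl fun v _ => ?_
  rw [dbl_cond]
  ring

/-- The probability that both samples are in `U`, weighted with a function of the label. -/
theorem pair_ge {q : W → ℝ} (hq : ∀ w, 0 ≤ q w) (Z : W → S) (L : W → S')
    (hL : ∀ w v, Z w = Z v → L w = L v) (U : Set W) (φ : W → ℝ) (hφ : ∀ w, 0 ≤ φ w)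
    (hφL : ∀ w v, L w = L v → φ w = φ v) :
    ∑ w, q w * (φ w * cpr q L U w ^ 2) ≤
      ∑ x : W × W, dbl q Z x * (ind U x.1 * ind U x.2 * φ x.1) := by
  rw [sum_dbl_U]
  have gL : ∀ w v, L w = L v → cpr q L U w = cpr q L U v := by
    intro w v h
    unfold cpr
    rw [h]
  have gZ : ∀ w v, Z w = Z v → cpr q Z U w = cpr q Z U v := by
    intro w v h
    unfold cpr
    rw [h]
  -- replace the indicator by the conditional probability
  have e1 : ∑ w, q w * ((ind U w * φ w) * cpr q Z U w) =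
      ∑ w, q w * (φ w * cpr q Z U w ^ 2) := by
    have := sum_cpr hq Z U (fun w => φ w * cpr q Z U w) (fun w v h => by
      show φ w * cpr q Z U w = φ v * cpr q Z U v
      rw [hφL w v (hL w v h), gZ w v h])
    have a : ∑ w, q w * ((ind U w * φ w) * cpr q Z U w) =
        ∑ w, q w * (φ w * cpr q Z U w * ind U w) :=
      Finset.sum_congr rfl fun w _ => by ring
    have b : ∑ w, q w * (φ w * cpr q Z U w ^ 2) =
        ∑ w, q w * (φ w * cpr q Z U w * cpr q Z U w) :=
      Finset.sum_congr rfl fun w _ => by ring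
    rw [a, b, this]
  have e2 : ∑ w, q w * (φ w * cpr q L U w * cpr q Z U w) =
      ∑ w, q w * (φ w * cpr q L U w ^ 2) := by
    have h1 := sum_cpr hq Z U (fun w => φ w * cpr q L U w) (fun w v h => by
      show φ w * cpr q L U w = φ v * cpr q L U v
      rw [hφL w v (hL w v h), gL w v (hL w v h)])
    have h2 := sum_cpr hq L U (fun w => φ w * cpr q L U w) (fun w v h => by
      show φ w * cpr q L U w = φ v * cpr q L U v
      rw [hφL w v h, gL w v h])
    have b : ∑ w, q w * (φ w * cpr q L U w ^ 2) =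
        ∑ w, q w * (φ w * cpr q L U w * cpr q L U w) :=
      Finset.sum_congr rfl fun w _ => by ring
    rw [b, h1, h2]
  rw [e1]
  have h3 : 0 ≤ ∑ w, q w * (φ w * (cpr q Z U w - cpr q L U w) ^ 2) :=
    Finset.sum_nonneg fun w _ => mul_nonneg (hq w) (mul_nonneg (hφ w) (sq_nonneg _))
  have e3 : ∑ w, q w * (φ w * (cpr q Z U w - cpr q L U w) ^ 2) =
      ∑ w, q w * (φ w * cpr q Z U w ^ 2) - 2 * ∑ w, q w * (φ w * cpr q L U w * cpr q Z U w) +
        ∑ w, q w * (φ w * cpr q L U w ^ 2) := by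
    rw [Finset.mul_sum, ← Finset.sum_sub_distrib, ← Finset.sum_add_distrib]
    exact Finset.sum_congr rfl fun w _ => by ring
  rw [e3, e2] at h3
  linarith

/-- Two samples in a set. -/
theorem two_ge {q : W → ℝ} (hq : IsLaw q) (Z : W → S) (U : Set W) :
    Pr q U ^ 2 ≤ Pr (dbl q Z) {w | w.1 ∈ U ∧ w.2 ∈ U} := by
  classical
  have h1 := pair_ge hq.nonneg Z Z (fun _ _ h => h) U (fun _ => 1) (fun _ => zero_le_one)
    (fun _ _ _ => rfl)
  have h2 : Pr (dbl q Z) {w | w.1 ∈ U ∧ w.2 ∈ U} =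
      ∑ x : W × W, dbl q Z x * (ind U x.1 * ind U x.2 * 1) := by
    rw [Pr_ind]
    refine Finset.sum_congr rfl fun x _ => ?_
    unfold ind
    by_cases a : x.1 ∈ U <;> by_cases b : x.2 ∈ U <;> simp [a, b]
  rw [h2]
  refine le_trans ?_ h1
  have h3 : Pr q U = ∑ w, q w * cpr q Z U w := by
    have := sum_cpr hq.nonneg Z U (fun _ => 1) (fun _ _ _ => rfl)
    rw [Pr_ind]
    simpa using this.symm
  rw [h3]
  have h4 := sq_mean hq (cpr q Z U)
  simpa using h4

/-- The probability that both samples of an independent pair are in `U` given the line. -/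
theorem cond_dbl {q : W → ℝ} (hq : ∀ w, 0 ≤ q w) (L : W → S') (U : Set W) (l : S')
    (hl : law q L l ≠ 0) :
    Pr (Pool.Agent.H49.Ent.cond (dbl q L) (fun x => L x.1) l) {w | w.1 ∈ U ∧ w.2 ∈ U} =
      Pr (Pool.Agent.H49.Ent.cond q L l) U ^ 2 := by
  classical
  have e1 : law (dbl q L) (fun x => L x.1) l = law q L l := dbl_law hq l
  rw [Pr_ind, Pr_ind, sq, Finset.sum_mul_sum, Fintype.sum_prod_type]
  refine Finset.sum_congr rfl fun w _ => Finset.sum_congr rfl fun v _ => ?_
  have e2 : ind {w : W × W | w.1 ∈ U ∧ w.2 ∈ U} (w, v) = ind U w * ind U v := by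
    unfold ind
    by_cases a : w ∈ U <;> by_cases b : v ∈ U <;> simp [a, b]
  rw [e2]
  have e3 : Pool.Agent.H49.Ent.cond (dbl q L) (fun x => L x.1) l (w, v) =
      Pool.Agent.H49.Ent.cond q L l w * Pool.Agent.H49.Ent.cond q L l v := by
    unfold Pool.Agent.H49.Ent.cond
    rw [e1]
    unfold dbl glue
    by_cases a : L w = l
    · by_cases b : L v = l
      · simp only [a, b, if_true]
        field_simp
      · rw [if_pos a, if_pos a, if_neg b, mul_zero]
        have : ¬ L w = L v := fun h => b (h ▸ a)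
        simp only [this, if_false, zero_div]
    · rw [if_neg a, if_neg a, zero_mul]
  rw [e3]
  ring

/-- Four samples in a set: a near pair and an independent pair on the same line. -/
theorem four_ge {q : W → ℝ} (hq : IsLaw q) (Z : W → S) (L : W → S')
    (hL : ∀ w v, Z w = Z v → L w = L v) (U : Set W) :
    Pr q U ^ 4 ≤ Pr (glue (dbl q Z) (dbl q L) (fun w => L w.1) (fun w => L w.1))
      {u | (u.1.1 ∈ U ∧ u.1.2 ∈ U) ∧ (u.2.1 ∈ U ∧ u.2.2 ∈ U)} := by
  classical
  set g := cpr q L U with hg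
  have hg0 : ∀ w, 0 ≤ g w := cpr_nonneg hq.nonneg L U
  have gL : ∀ w v, L w = L v → g w = g v := by
    intro w v h
    rw [hg]
    unfold cpr
    rw [h]
  have e0 : ∀ x : W × W, law (dbl q Z) (fun w => L w.1) (L x.1) = law q L (L x.1) := by
    intro x
    exact (dbl_fst hq.nonneg).law L (L x.1)
  have h1 : Pr (glue (dbl q Z) (dbl q L) (fun w => L w.1) (fun w => L w.1))
      {u | (u.1.1 ∈ U ∧ u.1.2 ∈ U) ∧ (u.2.1 ∈ U ∧ u.2.2 ∈ U)} =
      ∑ x : W × W, dbl q Z x * (ind U x.1 * ind U x.2 * g x.1 ^ 2) := by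
    rw [Pr_ind, Fintype.sum_prod_type]
    refine Finset.sum_congr rfl fun x _ => ?_
    rcases (dbl_nonneg (b := Z) hq.nonneg x).eq_or_lt with h0 | h0
    · rw [← h0, zero_mul]
      refine Finset.sum_eq_zero fun y _ => ?_
      unfold glue
      rw [← h0]
      simp
    · have hx1 : 0 < q x.1 := (dbl_fst hq.nonneg).pos (dbl_nonneg hq.nonneg) h0
      have hl : law q L (L x.1) ≠ 0 := (law_pos hq.nonneg L hx1).ne'
      have e1 := cond_dbl hq.nonneg L U (L x.1) hl
      have e2 : g x.1 ^ 2 = ∑ y, Pool.Agent.H49.Ent.cond (dbl q L) (fun x => L x.1) (L x.1) y *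
          ind {w : W × W | w.1 ∈ U ∧ w.2 ∈ U} y := by
        rw [← Pr_ind, e1, hg]
        rfl
      rw [e2, Finset.mul_sum, Finset.mul_sum]
      refine Finset.sum_congr rfl fun y _ => ?_
      have e3 : ind {u : (W × W) × (W × W) | (u.1.1 ∈ U ∧ u.1.2 ∈ U) ∧ (u.2.1 ∈ U ∧ u.2.2 ∈ U)}
          (x, y) = ind U x.1 * ind U x.2 * ind {w : W × W | w.1 ∈ U ∧ w.2 ∈ U} y := by
        unfold ind
        by_cases a : x.1 ∈ U <;> by_cases b : x.2 ∈ U <;> by_cases c : y.1 ∈ U <;>
          by_cases e : y.2 ∈ U <;> simp [a, b, c, e]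
      rw [e3]
      have e4 : glue (dbl q Z) (dbl q L) (fun w => L w.1) (fun w => L w.1) (x, y) =
          dbl q Z x * Pool.Agent.H49.Ent.cond (dbl q L) (fun x => L x.1) (L x.1) y := by
        have e5 : law (dbl q L) (fun w => L w.1) (L x.1) = law q L (L x.1) :=
          dbl_law hq.nonneg (L x.1)
        unfold Pool.Agent.H49.Ent.cond
        rw [e5]
        show (if L x.1 = L y.1 then dbl q Z x * dbl q L y /
          law (dbl q Z) (fun w => L w.1) (L x.1) else 0) = _
        rw [e0 x]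
        by_cases h : L x.1 = L y.1
        · rw [if_pos h, if_pos h.symm]
          ring
        · rw [if_neg h, if_neg (Ne.symm h), mul_zero]
      rw [e4]
      ring
  rw [h1]
  have h2 := pair_ge hq.nonneg Z L hL U (fun w => g w ^ 2) (fun w => sq_nonneg _)
    (fun w v h => by
      show g w ^ 2 = g v ^ 2
      rw [gL w v h])
  refine le_trans ?_ h2
  have h3 : Pr q U = ∑ w, q w * g w := by
    have := sum_cpr hq.nonneg L U (fun _ => 1) (fun _ _ _ => rfl)
    rw [Pr_ind]
    simpa using this.symm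
  have h4 := sq_mean hq g
  have h5 := sq_mean hq (fun w => g w ^ 2)
  have h6 : 0 ≤ ∑ w, q w * g w := Finset.sum_nonneg fun w _ => mul_nonneg (hq.nonneg w) (hg0 w)
  have h7 : (∑ w, q w * g w) ^ 4 ≤ (∑ w, q w * g w ^ 2) ^ 2 := by
    have : (∑ w, q w * g w) ^ 4 = ((∑ w, q w * g w) ^ 2) ^ 2 := by ring
    rw [this]
    exact pow_le_pow_left₀ (sq_nonneg _) h4 2
  rw [h3]
  refine h7.trans (h5.trans (le_of_eq ?_))
  exact Finset.sum_congr rfl fun w _ => by ring

end jen

end Pool.OCSA
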